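import Pool.Agent.H23.ER.Nu
import Mathlib.Topology.Order.IntermediateValue

/-!
# The criterion for the central value, and positivity
-/

set_option autoImplicit false

open Finset Polynomial
open Pool.Agent.H341R2.Sharp (Mon mem_Mon)
open Pool.Agent.H23.FF Pool.Agent.H23.PC Pool.Agent.H23.EL

namespace Pool.Agent.H23.ER

variable {F : Type} [Field F] [Fintype F] {ι : Type} [Fintype ι] [DecidableEq ι]

/-- the condition on the Redei matrix -/
def Cond (p : ι → F[X]) : Prop :=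
  (Fintype.card F % 8 = 5 ∧ (((∀ i, Odd (p i).natDegree) ∧ ((redei p) ^ 2 + redei p + 1).det ≠ 0) ∨
      ¬ (X ^ 2 + X + 1 : (ZMod 2)[X]) ∣ rpol p)) ∨
    (Fintype.card F % 8 = 1 ∧ (∀ r : ℕ, r ^ 2 = Fintype.card F → r % 4 = 3) ∧ (redei p + degs p).det ≠ 0) ∨
    (Fintype.card F % 4 = 3 ∧ (redei3 p).det ≠ 0)

/-- the element `(√q - 1) / 2` -/
theorem exists_tau {q m : ℕ} (hm : q = 4 * m + 1) {s : AI} (hs2 : s ^ 2 = (q : AI)) :
    ∃ τ : AI, (τ : ℂ) = ((s : ℂ) - 1) / 2 ∧ τ ^ 2 + τ = (m : AI) := by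
  have hs2' : (s : ℂ) ^ 2 = 4 * (m : ℂ) + 1 := by
    have h3 := congrArg (fun y : AI => (y : ℂ)) hs2
    push_cast at h3
    rw [h3, hm]
    push_cast
    ring
  have hint : IsIntegral ℤ (((s : ℂ) - 1) / 2) := by
    refine ⟨X ^ 2 + X - C (m : ℤ), ?_, ?_⟩
    · monicity!
    · simp only [eval₂_sub, eval₂_add, eval₂_pow, eval₂_X, eval₂_C]
      simp only [eq_intCast, Int.cast_natCast]
      linear_combination (1 / 4 : ℂ) * hs2'
  refine ⟨⟨((s : ℂ) - 1) / 2, hint⟩, rfl, ?_⟩
  apply Subtype.ext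
  push_cast
  linear_combination (1 / 4 : ℂ) * hs2'

/-- the place in the second case -/
theorem exists_pl {q m : ℕ} (hev : Even m) (hsq : ∀ r : ℕ, r ^ 2 = q → r % 4 = 3)
    {k : Type} [Field k] (h2 : (2 : k) = 0) (π : AI →+* k) {s τ : AI} (hs2 : s ^ 2 = (q : AI))
    (hs : (s : ℂ) = ((√(q : ℝ) : ℝ) : ℂ)) (hτc : (τ : ℂ) = ((s : ℂ) - 1) / 2)
    (hτ2 : τ ^ 2 + τ = (m : AI)) : ∃ π' : AI →+* k, π' τ = 1 := by
  have hm0 : (m : k) = 0 := by
    obtain ⟨c, hc⟩ := hev
    rw [hc, Nat.cast_add, ← two_mul, h2, zero_mul]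
  by_cases h1 : π τ = 1
  · exact ⟨π, h1⟩
  · have h0 : π τ = 0 := by
      have h3 : (π τ) ^ 2 + π τ = (m : k) := by
        rw [← map_pow, ← map_add, hτ2, map_natCast]
      rw [hm0] at h3
      have h4 : π τ * (π τ + 1) = 0 := by linear_combination h3
      rcases mul_eq_zero.1 h4 with h5 | h5
      · exact h5
      · exfalso
        apply h1
        linear_combination h5 - h2
    by_cases hq : IsSquare q
    · exfalso
      obtain ⟨r, hr⟩ := hq
      have h5 := hsq r (by rw [hr]; ring)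
      obtain ⟨a, ha⟩ : ∃ a, r = 4 * a + 3 := ⟨r / 4, by omega⟩
      have h6 : (s : ℂ) = (r : ℂ) := by
        rw [hs]
        have h7 : √(q : ℝ) = (r : ℝ) := by
          rw [hr]
          push_cast
          exact Real.sqrt_mul_self (by positivity)
        rw [h7]
        push_cast
        rfl
      have h7 : τ = 2 * (a : AI) + 1 := by
        apply Subtype.ext
        push_cast
        rw [hτc, h6, ha, two_coe]
        push_cast
        ring
      rw [h7, map_add, map_mul, map_ofNat, h2, zero_mul, zero_add, map_one] at h1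
      exact h1 rfl
    · obtain ⟨σ, hσ⟩ := exists_neg hq hs2
      refine ⟨π.comp σ, ?_⟩
      have h5 : (2 : AI) * σ τ = 2 * (-1 - τ) := by
        have h6 : (2 : AI) * τ = s - 1 := by
          apply Subtype.ext
          push_cast
          rw [hτc, two_coe]
          ring
        have h7 := congrArg σ h6
        rw [map_mul, map_ofNat, map_sub, map_one, hσ] at h7
        rw [h7]
        linear_combination h6
      have h6 : σ τ = -1 - τ := mul_left_cancel₀ two_ne_zero h5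
      rw [RingHom.comp_apply, h6, map_sub, map_neg, map_one, h0, sub_zero]
      linear_combination (-1 : k) * h2

open Classical in
theorem central_one {p : ι → F[X]} (hp : Function.Injective p) (hT : ∀ i, Good leg (p i)) [Nonempty ι]
    {m : ℕ} {k : Type} [Field k] {π : AI →+* k} {τ : AI} (hP : Plc (Fintype.card F) m k π τ)
    (φ : ZMod 2 →+* k) (hd : ((redei p).map φ + (π τ) • (degs p).map φ).det ≠ 0)
    {u : ℂ} (hu : (1 + 2 * (τ : ℂ)) * u = 1) :
    (LS leg (univ.image p)).eval u ≠ 0 := by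
  have hT' : ∀ P ∈ univ.image p, Good leg P := by
    intro P hP
    obtain ⟨i, _, rfl⟩ := mem_image.1 hP
    exact hT i
  have hne : (univ.image p).Nonempty := univ_nonempty.image p
  obtain ⟨c, hc⟩ : ∃ c : F[X] → k, c = fun P => π τ * (P.natDegree : k) := ⟨_, rfl⟩
  have hν : ∀ T' ⊆ univ.image p, T'.Nonempty →
      ∑ S ∈ T'.powerset, nu c (ee leg k) p S *
        ∏ P ∈ T' \ S, (c P + ∑ R ∈ S, ee leg k P R) = 0 := by
    intro T' hT' hne'
    exact nu_id c (ee leg k) hp (fun i => ee_self (hT i)) hP.two hT' hne'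
  have hfac : ∀ S ⊆ univ.image p, ∀ P ∈ univ.image p, P ∉ S →
      V π 2 ((fun _ => 1 : F[X] → ℕ) P) (c P + ∑ R ∈ S, ee leg k P R)
        (1 - XS leg S P * u ^ P.natDegree) := by
    intro S hS P hPT hPS
    rw [hc]
    exact fac_one hP hT' hu hS hPT hPS
  have hPI : ∀ T ⊆ univ.image p, T.Nonempty →
      V π 2 (∑ P ∈ T, (fun _ => 1 : F[X] → ℕ) P) (0 : k) ((PI leg T).eval u) := by
    intro T hTT hTn
    have h4 := PI_V1 hP (fun P hP => hT' P (hTT hP)) hTn hu
    have h5 : ∑ P ∈ T, (fun _ => 1 : F[X] → ℕ) P = T.card := by rw [sum_const, smul_eq_mul, mul_one]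
    rw [h5]
    exact h4
  intro h0
  have h3 := rec_V (χ := leg) (π := π) (t := 2) hP.two (u := u) (T0 := univ.image p) (fun _ => 1)
    c (ee leg k) hfac hPI (nu c (ee leg k) p) (nu_empty _ _ _) hν (univ.image p) (Subset.refl _) hne
  rw [h0, mul_zero, hc, nu_top φ] at h3
  exact h3.ne_zero two_ne_zero hd rfl

open Classical in
theorem central_three {p : ι → F[X]} (hp : Function.Injective p) (hT : ∀ i, Good leg (p i)) [Nonempty ι]
    {k : Type} [Field k] {π : AI →+* k} {s : AI} (hP : Place (Fintype.card F) k π s)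
    (φ : ZMod 2 →+* k) (hd : ((redei3 p).map φ).det ≠ 0)
    {u : ℂ} (hu : (s : ℂ) * u = 1) :
    (LS leg (univ.image p)).eval u ≠ 0 := by
  have hT' : ∀ P ∈ univ.image p, Good leg P := by
    intro P hP
    obtain ⟨i, _, rfl⟩ := mem_image.1 hP
    exact hT i
  have hne : (univ.image p).Nonempty := univ_nonempty.image p
  have hef : ∀ i, ef leg k (p i) (p i) = 0 := by
    intro i
    unfold ef
    rw [ee_self (hT i), ite_self]
  have hν : ∀ T' ⊆ univ.image p, T'.Nonempty →
      ∑ S ∈ T'.powerset, nu (ct k) (ef leg k) p S *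
        ∏ P ∈ T' \ S, (ct k P + ∑ R ∈ S, ef leg k P R) = 0 := by
    intro T' hT' hne'
    exact nu_id (ct k) (ef leg k) hp hef (two_k hP) hT' hne'
  intro h0
  have h3 := rec_V (χ := leg) (π := π) (t := s - 1) (two_k hP) (u := u) (T0 := univ.image p) wt
    (ct k) (ef leg k)
    (fun S hS P hPT hPS => fac_three hP hT' hu hS hPT hPS)
    (fun T hTT hTn => PI_V3 hP (fun P hP => hT' P (hTT hP)) hTn hu)
    (nu (ct k) (ef leg k) p) (nu_empty _ _ _) hν (univ.image p)
    (Subset.refl _) hne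
  rw [h0, mul_zero, nu_top3 φ] at h3
  exact h3.ne_zero hP.ne hd rfl

open Classical in
/-- **the central value is not zero** -/
theorem central_redei {p : ι → F[X]} (hp : Function.Injective p) (hT : ∀ i, Good leg (p i)) [Nonempty ι]
    (hc : Cond p) {u : ℂ} (hu : ((√(Fintype.card F : ℝ) : ℝ) : ℂ) * u = 1) :
    (LS leg (univ.image p)).eval u ≠ 0 := by
  obtain ⟨k, _, π, hk⟩ := exists_place Nat.prime_two
  obtain ⟨s, hs, hs2⟩ := sqrt_int (Fintype.card F)
  have h2 : (2 : k) = 0 := by exact_mod_cast hk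
  have hchar : CharP k 2 := (CharP.charP_iff_prime_eq_zero Nat.prime_two).2 hk
  have φ : ZMod 2 →+* k := ZMod.castHom (dvd_refl 2) k
  have hone : ∀ {m : ℕ} (τ : AI), (τ : ℂ) = ((s : ℂ) - 1) / 2 → τ ^ 2 + τ = (m : AI) →
      (1 + 2 * (τ : ℂ)) * u = 1 := by
    intro m τ hτc _
    rw [hτc, ← hu, ← hs]
    ring
  rcases hc with ⟨h8, hdet⟩ | ⟨h8, hsq, hdet⟩ | ⟨h4, hdet⟩
  · obtain ⟨m, hm⟩ : ∃ m, Fintype.card F = 4 * m + 1 := ⟨Fintype.card F / 4, by omega⟩
    obtain ⟨τ, hτc, hτ2⟩ := exists_tau hm hs2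
    have hcc : (π τ) ^ 2 + π τ = 1 := by
      rw [← map_pow, ← map_add, hτ2, map_natCast]
      obtain ⟨c, hc⟩ : ∃ c, m = 2 * c + 1 := ⟨m / 2, by omega⟩
      rw [hc]
      push_cast
      rw [h2, zero_mul, zero_add]
    refine central_one hp hT (⟨h2, hm, hτ2⟩ : Plc (Fintype.card F) m k π τ) φ ?_ (hone τ hτc hτ2)
    rcases hdet with ⟨hodd, hdet⟩ | hdet
    · have h5 := det_five φ h2 hcc hdet
      have h6 : (degs p).map φ = (1 : Matrix ι ι k) := by
        have h7 : degs p = 1 := by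
          unfold degs
          rw [← Matrix.diagonal_one]
          congr 1
          funext i
          obtain ⟨c, hc⟩ := hodd i
          rw [hc, Nat.cast_add, Nat.cast_mul]
          have h8 : ((2 : ℕ) : ZMod 2) = 0 := by decide
          rw [h8, zero_mul, zero_add, Nat.cast_one]
        rw [h7]
        exact map_one (φ.mapMatrix (m := ι))
      rw [h6]
      exact h5
    · exact rpol_ne φ h2 hcc hdet
  · obtain ⟨m, hm⟩ : ∃ m, Fintype.card F = 4 * m + 1 := ⟨Fintype.card F / 4, by omega⟩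
    obtain ⟨τ, hτc, hτ2⟩ := exists_tau hm hs2
    obtain ⟨π', hπ'⟩ := exists_pl (by rw [Nat.even_iff]; omega) hsq h2 π hs2 hs hτc hτ2
    refine central_one hp hT (⟨h2, hm, hτ2⟩ : Plc (Fintype.card F) m k π' τ) φ ?_ (hone τ hτc hτ2)
    rw [hπ', one_smul]
    have h3 := map_add (φ.mapMatrix (m := ι)) (redei p) (degs p)
    have h4 : (redei p).map φ + (degs p).map φ = (redei p + degs p).map φ := h3.symm
    rw [h4]
    intro h0
    apply hdet
    apply (map_eq_zero φ).1
    rw [RingHom.map_det]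
    exact h0
  · refine central_three hp hT (⟨by exact_mod_cast h2, hs2, h4⟩ : Place (Fintype.card F) k π s) φ ?_
      (by rw [hs]; exact hu)
    intro h0
    apply hdet
    apply (map_eq_zero φ).1
    rw [RingHom.map_det]
    exact h0

/-- a character induced by the product of the symbols is not principal -/
theorem NT_of_ind {N : F[X]} {φ : F[X] → ℂ} (h : DC N φ) {T : Finset F[X]} (hT : ∀ P ∈ T, Good leg P)
    (hne : T.Nonempty) (hφ : ∀ f, IsCoprime f N → φ f = XS leg T f) : NT N φ := by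
  obtain ⟨f, hf, hf1⟩ := nt_XS hT hne
  obtain ⟨t, ht⟩ := avoid h.monic hf
  refine ⟨f + QS T * t, ht, ?_⟩
  rw [hφ _ ht, (dc_XS hT).per (f + QS T * t) f ⟨t, by ring⟩]
  exact hf1

/-- passage to a character induced by the product of the symbols -/
theorem central_ind {N : F[X]} {φ : F[X] → ℂ} (h : DC N φ) {T : Finset F[X]} (hT : ∀ P ∈ T, Good leg P)
    (hne : T.Nonempty) (hTN : ∀ P ∈ T, P ∣ N) (hφ : ∀ f, IsCoprime f N → φ f = XS leg T f) {u : ℂ}
    (hu1 : ‖u‖ < 1) (hc : (LS leg T).eval u ≠ 0) : (Lp N.natDegree φ).eval u ≠ 0 := by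
  classical
  have hI : Ind N φ (QS T) (XS leg T) :=
    ⟨prod_dvd_all (fun P hP => ⟨(hT P hP).monic, (hT P hP).irr⟩) hTN, dc_XS hT, hφ⟩
  rw [induced h rfl (NT_of_ind h hT hne hφ) hI rfl (nt_XS hT hne), eval_mul, eval_prod]
  apply mul_ne_zero hc
  rw [prod_ne_zero_iff]
  intro P hP h0
  rw [mem_filter, mem_PP] at hP
  unfold lf at h0
  rw [eval_sub, eval_one, eval_mul, eval_C, eval_pow, eval_X, sub_eq_zero] at h0
  have h3 := congrArg norm h0
  rw [norm_one, norm_mul, norm_pow] at h3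
  have h4 : ‖u‖ ^ P.natDegree < 1 := by
    apply pow_lt_one₀ (norm_nonneg u) hu1
    have := hP.1.2.1.natDegree_pos
    omega
  have h5 := (dc_XS hT).norm_le P
  have h6 : ‖XS leg T P‖ * ‖u‖ ^ P.natDegree ≤ 1 * ‖u‖ ^ P.natDegree :=
    mul_le_mul_of_nonneg_right h5 (pow_nonneg (norm_nonneg u) _)
  linarith

/-- positivity from the central value -/
theorem pos_of_central {N : F[X]} {φ : F[X] → ℂ} (h : DC N φ)
    (hpm : ∀ f, IsCoprime f N → φ f = 1 ∨ φ f = -1) (hn : NT N φ)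
    (hc : ∀ u : ℂ, ((√(Fintype.card F : ℝ) : ℝ) : ℂ) * u = 1 → (Lp N.natDegree φ).eval u ≠ 0)
    {x : ℝ} (hx0 : 0 < x) (hx1 : x < 1) :
    ∃ y : ℝ, 0 < y ∧ (Lp N.natDegree φ).eval (x : ℂ) = y := by
  have hre : ∀ f, (((φ f).re : ℝ) : ℂ) = φ f := by
    intro f
    by_cases hf : IsCoprime f N
    · rcases hpm f hf with h1 | h1 <;> rw [h1] <;> simp
    · rw [h.zero f hf]
      simp
  set a : ℕ → ℝ := fun n => ∑ f ∈ Mon F n, (φ f).re with ha
  have hac : ∀ n, (a n : ℂ) = cf φ n := by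
    intro n
    rw [ha]
    unfold cf
    push_cast
    exact sum_congr rfl (fun f _ => hre f)
  set G : ℝ → ℝ := fun x => ∑ n ∈ range N.natDegree, a n * x ^ n with hG
  have hGe : ∀ x : ℝ, (Lp N.natDegree φ).eval (x : ℂ) = (G x : ℂ) := by
    intro x
    rw [hG]
    unfold Lp
    rw [eval_finsetSum]
    push_cast
    apply sum_congr rfl
    intro n _
    rw [eval_mul, eval_C, eval_pow, eval_X, hac]
  have hGc : Continuous G := by
    rw [hG]
    exact continuous_finsetSum _ (fun n _ => continuous_const.mul (continuous_pow n))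
  have hM := NT_degree h hn
  have hG0 : G 0 = 1 := by
    have h1 : (G 0 : ℂ) = 1 := by
      rw [← hGe, Complex.ofReal_zero, ← coeff_zero_eq_eval_zero, Lp_coeff h rfl hn, cf_zero h]
    exact_mod_cast h1
  have hGne : ∀ y : ℝ, 0 < y → y < 1 → G y ≠ 0 := by
    intro y hy0 hy1 h0
    have h1 : (Lp N.natDegree φ).eval (y : ℂ) = 0 := by
      rw [hGe, h0, Complex.ofReal_zero]
    obtain ⟨_, _, _, hz, _⟩ := zeros h rfl hn
    have h2 := hz (y : ℂ) ((mem_roots (Lp_ne h rfl hn)).2 h1)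
    rw [Complex.norm_real, Real.norm_of_nonneg hy0.le] at h2
    rcases h2 with h2 | h2
    · apply hc (y : ℂ) ?_ h1
      have h3 : √(Fintype.card F : ℝ) * y = 1 := h2
      rw [← Complex.ofReal_mul, h3, Complex.ofReal_one]
    · exact absurd h2 hy1.ne
  refine ⟨G x, ?_, hGe x⟩
  by_contra hc
  push Not at hc
  have h1 := intermediate_value_Icc' hx0.le hGc.continuousOn
  have h2 : (0 : ℝ) ∈ Set.Icc (G x) (G 0) := ⟨hc, by rw [hG0]; exact zero_le_one⟩
  obtain ⟨y, hy, hy0⟩ := h1 h2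
  rcases hy.1.eq_or_lt with h3 | h3
  · rw [← h3, hG0] at hy0
    exact one_ne_zero hy0
  · exact hGne y h3 (lt_of_le_of_lt hy.2 hx1) hy0

end Pool.Agent.H23.ER
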