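import Pool.Agent.H23.ER.Rec

/-!
# The factors at a place above two
-/

set_option autoImplicit false

open Finset Polynomial
open Pool.Agent.H341R2.Sharp (Mon mem_Mon)
open Pool.Agent.H23.FF Pool.Agent.H23.PC Pool.Agent.H23.EL

namespace Pool.Agent.H23.ER

/-- the place above `2` and `τ = (√q - 1) / 2`, `q = 4 m + 1` -/
structure Plc (q m : ℕ) (k : Type) [Field k] (π : AI →+* k) (τ : AI) : Prop where
  two : (2 : k) = 0
  eq : q = 4 * m + 1
  sq : τ ^ 2 + τ = (m : AI)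

section place

variable {q m : ℕ} {k : Type} [Field k] {π : AI →+* k} {τ : AI} (h : Plc q m k π τ)

theorem two_coe : ((2 : AI) : ℂ) = 2 := rfl

theorem V_two' : V π 2 1 (1 : k) (2 : ℂ) :=
  ⟨1, 1, map_one π, map_one π, by push_cast; rw [two_coe]; ring⟩

include h

theorem Plc.pi_two : π (2 : AI) = 0 := by rw [map_ofNat, h.two]

theorem Plc.pi_s : π (1 + 2 * τ) = 1 := by
  rw [map_add, map_one, map_mul, h.pi_two, zero_mul, add_zero]

theorem Plc.V_u {u : ℂ} (hu : (1 + 2 * (τ : ℂ)) * u = 1) : V π 2 0 (1 : k) u :=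
  ⟨1, 1 + 2 * τ, map_one π, h.pi_s, by push_cast; rw [two_coe]; linear_combination hu⟩

theorem Plc.V_fac {u : ℂ} (hu : (1 + 2 * (τ : ℂ)) * u = 1) (M : ℕ) :
    V π 2 1 (π τ * (M : k)) (1 - u ^ M) := by
  refine ⟨τ * ∑ i ∈ range M, (1 + 2 * τ) ^ i, (1 + 2 * τ) ^ M, ?_, ?_, ?_⟩
  · rw [map_mul, map_sum, sum_congr rfl (fun i _ => by rw [map_pow, h.pi_s, one_pow]), sum_const,
      card_range, nsmul_one]
  · rw [map_pow, h.pi_s, one_pow]
  · have h1 : (∑ i ∈ range M, (1 + 2 * (τ : ℂ)) ^ i) * ((1 + 2 * (τ : ℂ)) - 1) =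
        (1 + 2 * (τ : ℂ)) ^ M - 1 := geom_sum_mul _ _
    have h2 : (1 + 2 * (τ : ℂ)) ^ M * u ^ M = 1 := by rw [← mul_pow, hu, one_pow]
    push_cast
    simp only [two_coe]
    linear_combination -h1 - h2

theorem Plc.V_fac' {u : ℂ} (hu : (1 + 2 * (τ : ℂ)) * u = 1) (M : ℕ) {c : ℂ} {x : k}
    (hc : (c = 1 ∧ x = 0) ∨ (c = -1 ∧ x = 1)) : V π 2 1 (π τ * (M : k) + x) (1 - c * u ^ M) := by
  rcases hc with ⟨rfl, rfl⟩ | ⟨rfl, rfl⟩
  · rw [one_mul, add_zero]
    exact h.V_fac hu M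
  · have h1 := h.V_fac hu M
    have h2 := (V_two' (π := π)).mul ((h.V_u hu).pow M)
    rw [mul_one, zero_mul, add_zero] at h2
    have h3 := h1.add h2
    have e : 1 - -1 * u ^ M = 1 - u ^ M + 2 * u ^ M := by ring
    rw [e]
    exact h3

end place

variable {F : Type} [Field F] [Fintype F] {χ : F[X] → F[X] → ℂ}
variable {m : ℕ} {k : Type} [Field k] {π : AI →+* k} {τ : AI}

theorem PI_V1 (h : Plc (Fintype.card F) m k π τ) {T : Finset F[X]} (hT : ∀ P ∈ T, Good χ P)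
    (hne : T.Nonempty) {u : ℂ} (hu : (1 + 2 * (τ : ℂ)) * u = 1) :
    V π 2 T.card (0 : k) ((PI χ T).eval u) := by
  have h4 : ∀ P ∈ T, (4 : ℤ) ∣ (Fintype.card F : ℤ) ^ P.natDegree - 1 := by
    intro P _
    have h5 : ((Fintype.card F : ℤ) - 1) ∣ (Fintype.card F : ℤ) ^ P.natDegree - 1 ^ P.natDegree :=
      sub_dvd_pow_sub_pow _ _ _
    rw [one_pow] at h5
    refine dvd_trans ⟨(m : ℤ), ?_⟩ h5
    rw [h.eq]
    push_cast
    ring
  obtain ⟨w, N, hw, hN, he⟩ := PI_even (m := 2 * m) (by rw [h.eq]; ring) hT h4 hne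
  rw [eval_eq_sum_range' hN]
  have h1 : ∀ n ∈ range N, V π 2 T.card ((w n : ℤ) : k) ((PI χ T).coeff n * u ^ n) := by
    intro n _
    rw [hw n]
    have h2 := (((V_two' (π := π)).pow T.card).mul (V.int (w n))).mul ((h.V_u hu).pow n)
    rw [one_mul, one_mul, mul_one, zero_mul, add_zero, add_zero] at h2
    exact h2
  have h2 := V.sum _ h1
  have h3 : ∑ n ∈ range N, ((w n : ℤ) : k) = 0 := by
    rw [← Int.cast_sum]
    obtain ⟨z, hz⟩ := he
    rw [hz, Int.cast_add, ← two_mul, h.two, zero_mul]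
  rwa [h3] at h2

omit [Fintype F] in
theorem fac_one {q : ℕ} (h : Plc q m k π τ) {T0 : Finset F[X]} (hT0 : ∀ P ∈ T0, Good χ P)
    {u : ℂ} (hu : (1 + 2 * (τ : ℂ)) * u = 1) {S : Finset F[X]} (hS : S ⊆ T0) {P : F[X]} (hP : P ∈ T0)
    (hPS : P ∉ S) :
    V π 2 1 (π τ * (P.natDegree : k) + ∑ R ∈ S, ee χ k P R) (1 - XS χ S P * u ^ P.natDegree) :=
  h.V_fac' hu _ (XS_ee h.two (fun R hR => hT0 R (hS hR)) (hT0 P hP) hPS)

/-! ### `q = 3` modulo `4` -/

section three

variable {q : ℕ} {s : AI} (h : Place q k π s)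

include h

theorem two_k : (2 : k) = 0 := by exact_mod_cast h.two

theorem V_even {u : ℂ} (hu : (s : ℂ) * u = 1) (a : ℕ) :
    V π (s - 1) 2 (a : k) (1 - u ^ (2 * a)) := by
  obtain ⟨y, hy, hya⟩ : ∃ y : ℤ, (q : ℤ) ^ a - 1 = 2 * y ∧ ((y : ℤ) : k) = (a : k) := by
    have hq := h.mod
    have h4 : (4 : ℤ) ∣ (q : ℤ) ^ a - (-1) ^ a := by
      have h5 : ((q : ℤ) - (-1)) ∣ (q : ℤ) ^ a - (-1) ^ a := sub_dvd_pow_sub_pow _ _ _
      refine dvd_trans ?_ h5
      refine ⟨(q / 4 : ℕ) + 1, ?_⟩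
      omega
    obtain ⟨x, hx⟩ := h4
    rcases Nat.even_or_odd a with he | ho
    · refine ⟨2 * x, ?_, ?_⟩
      · rw [he.neg_one_pow] at hx
        rw [hx]
        ring
      · obtain ⟨b, rfl⟩ := he
        rw [Int.cast_mul, Int.cast_ofNat, two_k h, zero_mul, Nat.cast_add, ← two_mul, two_k h, zero_mul]
    · refine ⟨2 * x - 1, ?_, ?_⟩
      · rw [ho.neg_one_pow] at hx
        linear_combination hx
      · obtain ⟨b, rfl⟩ := ho
        rw [Int.cast_sub, Int.cast_mul, Int.cast_ofNat, two_k h, zero_mul, Nat.cast_add, Nat.cast_mul,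
          Nat.cast_ofNat, two_k h, zero_mul, zero_add, Int.cast_one, Nat.cast_one, zero_sub]
        linear_combination (-1 : k) * two_k h
  have h1 := (h.V_two.mul (V.int y)).mul ((h.V_u hu).pow (2 * a))
  rw [one_mul, mul_one, zero_mul, add_zero, add_zero, hya] at h1
  have hqc : (s : ℂ) ^ 2 = (q : ℂ) := by
    have h3 := congrArg (fun y : AI => (y : ℂ)) h.sq
    push_cast at h3
    exact h3
  have h2 : (q : ℂ) ^ a * u ^ (2 * a) = 1 := by
    rw [← hqc, ← pow_mul, ← mul_pow, hu, one_pow]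
  have h3 : (q : ℂ) ^ a - 1 = 2 * (y : ℂ) := by exact_mod_cast congrArg (fun z : ℤ => (z : ℂ)) hy
  have e : 1 - u ^ (2 * a) = 2 * (y : ℂ) * u ^ (2 * a) := by
    rw [← h3]
    linear_combination -h2
  rw [e]
  exact h1

theorem V_even' {u : ℂ} (hu : (s : ℂ) * u = 1) (a : ℕ) {c : ℂ} {x : k}
    (hc : (c = 1 ∧ x = 0) ∨ (c = -1 ∧ x = 1)) : V π (s - 1) 2 ((a : k) + x) (1 - c * u ^ (2 * a)) := by
  rcases hc with ⟨rfl, rfl⟩ | ⟨rfl, rfl⟩
  · rw [one_mul, add_zero]
    exact V_even h hu a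
  · have h1 := V_even h hu a
    have h2 := h.V_two.mul ((h.V_u hu).pow (2 * a))
    rw [mul_one, zero_mul, add_zero] at h2
    have h3 := h1.add h2
    have e : 1 - -1 * u ^ (2 * a) = 1 - u ^ (2 * a) + 2 * u ^ (2 * a) := by ring
    rw [e]
    exact h3

end three

open Classical in
/-- the weights -/
noncomputable def wt (P : F[X]) : ℕ := if Odd P.natDegree then 1 else 2

open Classical in
/-- the constants -/
noncomputable def ct (k : Type) [Field k] (P : F[X]) : k :=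
  if Odd P.natDegree then 1 else ((P.natDegree / 2 : ℕ) : k)

variable (χ) (k) in
open Classical in
/-- the symbols -/
noncomputable def ef (P R : F[X]) : k := if Odd P.natDegree then 0 else ee χ k P R

omit [Fintype F] in
theorem fac_three {q : ℕ} {s : AI} (h : Place q k π s) {T0 : Finset F[X]} (hT0 : ∀ P ∈ T0, Good χ P)
    {u : ℂ} (hu : (s : ℂ) * u = 1) {S : Finset F[X]} (hS : S ⊆ T0) {P : F[X]} (hP : P ∈ T0)
    (hPS : P ∉ S) :
    V π (s - 1) (wt P) (ct k P + ∑ R ∈ S, ef χ k P R) (1 - XS χ S P * u ^ P.natDegree) := by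
  have h1 := XS_ee (two_k h) (fun R hR => hT0 R (hS hR)) (hT0 P hP) hPS
  unfold wt ct ef
  by_cases ho : Odd P.natDegree
  · simp only [if_pos ho]
    rw [sum_const_zero, add_zero]
    apply h.V_fac' hu ho
    rcases h1 with h1 | h1
    · exact Or.inl h1.1
    · exact Or.inr h1.1
  · simp only [if_neg ho]
    have he : 2 * (P.natDegree / 2) = P.natDegree := by
      rw [Nat.not_odd_iff_even] at ho
      exact Nat.two_mul_div_two_of_even ho
    have h2 := V_even' h hu (P.natDegree / 2) h1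
    rwa [he] at h2

theorem PI_V3 {s : AI} (h : Place (Fintype.card F) k π s) {T : Finset F[X]} (hT : ∀ P ∈ T, Good χ P)
    (hne : T.Nonempty) {u : ℂ} (hu : (s : ℂ) * u = 1) :
    V π (s - 1) (∑ P ∈ T, wt P) (0 : k) ((PI χ T).eval u) := by
  classical
  have hwt : ∀ P : F[X], wt P ≤ 2 := by
    intro P
    unfold wt
    split_ifs <;> omega
  by_cases hex : ∃ P ∈ T, Odd P.natDegree
  · obtain ⟨P, hP, ho⟩ := hex
    have hlt : ∑ P ∈ T, wt P < 2 * T.card := by
      have h1 : ∑ P ∈ T, wt P < ∑ _P ∈ T, 2 := by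
        apply sum_lt_sum (fun R _ => hwt R)
        refine ⟨P, hP, ?_⟩
        unfold wt
        rw [if_pos ho]
        omega
      rw [sum_const, smul_eq_mul] at h1
      omega
    choose z hz using PI_coeff hT
    rw [eval_eq_sum_range]
    have h1 : ∀ n ∈ range ((PI χ T).natDegree + 1),
        V π (s - 1) (∑ P ∈ T, wt P) (0 : k) ((PI χ T).coeff n * u ^ n) := by
      intro n _
      rw [hz n]
      have h2 := ((h.V_two.pow T.card).mul (V.int (z n))).mul ((h.V_u hu).pow n)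
      exact h2.up h.t0 (by omega)
    have h2 := V.sum _ h1
    rwa [sum_const_zero] at h2
  · push Not at hex
    have hw : ∑ P ∈ T, wt P = 2 * T.card := by
      have h1 : ∑ P ∈ T, wt P = ∑ _P ∈ T, 2 := by
        apply sum_congr rfl
        intro P hP
        unfold wt
        rw [if_neg (hex P hP)]
      rw [h1, sum_const, smul_eq_mul, mul_comm]
    have h4 : ∀ P ∈ T, (4 : ℤ) ∣ (Fintype.card F : ℤ) ^ P.natDegree - 1 := by
      intro P hP
      have he := Nat.not_odd_iff_even.1 (hex P hP)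
      obtain ⟨a, ha⟩ := he
      have h5 : ((Fintype.card F : ℤ) ^ 2 - 1) ∣ ((Fintype.card F : ℤ) ^ 2) ^ a - 1 ^ a :=
        sub_dvd_pow_sub_pow _ _ _
      rw [one_pow, ← pow_mul] at h5
      have h6 : 2 * a = P.natDegree := by omega
      rw [h6] at h5
      refine dvd_trans ?_ h5
      obtain ⟨b, hb⟩ : ∃ b, Fintype.card F = 4 * b + 3 := ⟨Fintype.card F / 4, by have := h.mod; omega⟩
      refine ⟨4 * b ^ 2 + 6 * b + 2, ?_⟩
      rw [hb]
      push_cast
      ring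
    obtain ⟨m, hm⟩ : ∃ m, Fintype.card F = 2 * m + 1 := ⟨Fintype.card F / 2, by have := h.mod; omega⟩
    obtain ⟨w, N, hw', hN, he⟩ := PI_even hm hT h4 hne
    rw [eval_eq_sum_range' hN, hw]
    have h1 : ∀ n ∈ range N, V π (s - 1) (2 * T.card) ((w n : ℤ) : k) ((PI χ T).coeff n * u ^ n) := by
      intro n _
      rw [hw' n]
      have h2 := ((h.V_two.pow T.card).mul (V.int (w n))).mul ((h.V_u hu).pow n)
      rw [one_mul, mul_one, zero_mul, add_zero, add_zero] at h2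
      exact h2
    have h2 := V.sum _ h1
    have h3 : ∑ n ∈ range N, ((w n : ℤ) : k) = 0 := by
      rw [← Int.cast_sum]
      obtain ⟨z, hz⟩ := he
      rw [hz, Int.cast_add, ← two_mul, two_k h, zero_mul]
    rwa [h3] at h2

end Pool.Agent.H23.ER
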