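import Pool.Agent.H23.ER.Small

/-!
# Quadratic characters modulo a general polynomial, in terms of the primes of the conductor
-/

set_option autoImplicit false

open Finset Polynomial
open Pool.Agent.H341R2.Sharp (Mon mem_Mon)
open Pool.Agent.H23.FF Pool.Agent.H23.PC Pool.Agent.H23.EL

namespace Pool.Agent.H23.ER

variable {F : Type} [Field F] [Fintype F]

theorem two_ne_of_odd (hq : Odd (Fintype.card F)) : (2 : F) ≠ 0 := by
  apply Ring.two_ne_zero
  intro h
  have h1 := FiniteField.even_card_iff_char_two.1 h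
  rw [Nat.odd_iff] at hq
  omega

/-- the primes of the conductor -/
structure Fam {r : ℕ} (N : F[X]) (φ : F[X] → ℂ) (p : Fin r → F[X]) : Prop where
  pos : 1 ≤ r
  inj : Function.Injective p
  prime : ∀ i, (p i).Monic ∧ Irreducible (p i)
  dvd : ∀ i, p i ∣ N
  eq : ∀ f, IsCoprime f N → φ f = ∏ i, leg (p i) f

theorem exists_fam (hq : Odd (Fintype.card F)) {N : F[X]} {φ : F[X] → ℂ} (h : DC N φ)
    (hpm : ∀ f, IsCoprime f N → φ f = 1 ∨ φ f = -1) (hn : NT N φ) :
    ∃ (r : ℕ) (p : Fin r → F[X]), Fam N φ p := by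
  classical
  obtain ⟨S, hS, hSφ⟩ := quad_struct h (two_ne_of_odd hq) hpm
  have hm : ∀ P ∈ prs N, P.Monic ∧ Irreducible P ∧ P ∣ N := fun P hP => (mem_prs h.monic).1 hP
  refine ⟨S.card, fun i => ((S.equivFin.symm i : S) : F[X]), ?_, ?_, ?_, ?_, ?_⟩
  · by_contra h0
    have h1 : S = ∅ := card_eq_zero.1 (by omega)
    obtain ⟨f, hf, hf1⟩ := hn
    apply hf1
    rw [hSφ f hf, h1]
    unfold XS
    rw [prod_empty]
  · intro i j hij
    exact S.equivFin.symm.injective (Subtype.ext hij)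
  · intro i
    have h1 := hm _ (hS (S.equivFin.symm i).2)
    exact ⟨h1.1, h1.2.1⟩
  · intro i
    exact (hm _ (hS (S.equivFin.symm i).2)).2.2
  · intro f hf
    rw [hSφ f hf]
    unfold XS
    rw [← prod_coe_sort S (fun P => leg P f)]
    exact (Equiv.prod_comp S.equivFin.symm (fun P : S => leg (P : F[X]) f)).symm

/-- **positivity** -/
theorem Fam.pos_unit (hq : Odd (Fintype.card F)) {r : ℕ} {N : F[X]} {φ : F[X] → ℂ} {p : Fin r → F[X]}
    (hp : Fam N φ p) (h : DC N φ) (hc : Cond p) {x : ℝ} (hx0 : 0 < x) (hx1 : x < 1) :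
    ∃ y : ℝ, 0 < y ∧ (Lp N.natDegree φ).eval (x : ℂ) = y := by
  classical
  have : NeZero r := ⟨by have := hp.pos; omega⟩
  have h2 := two_ne_of_odd hq
  have hG : ∀ i, Good leg (p i) := fun i => leg_Good h2 (hp.prime i).1 (hp.prime i).2
  have hT : ∀ Q ∈ univ.image p, Good leg Q := by
    intro Q hQ
    obtain ⟨i, _, rfl⟩ := mem_image.1 hQ
    exact hG i
  have hne : (univ.image p).Nonempty := univ_nonempty.image p
  have hTN : ∀ Q ∈ univ.image p, Q ∣ N := by
    intro Q hQ
    obtain ⟨i, _, rfl⟩ := mem_image.1 hQ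
    exact hp.dvd i
  have hφ : ∀ f, IsCoprime f N → φ f = XS leg (univ.image p) f := by
    intro f hf
    unfold XS
    rw [hp.eq f hf, prod_image (fun x _ y _ hxy => hp.inj hxy)]
  have hpm : ∀ f, IsCoprime f N → φ f = 1 ∨ φ f = -1 := by
    intro f hf
    have h1 : φ f * φ f = 1 := by
      rw [hφ f hf]
      unfold XS
      rw [← prod_mul_distrib]
      apply prod_eq_one
      intro Q hQ
      rcases (hT Q hQ).pm f (hf.of_isCoprime_of_dvd_right (hTN Q hQ)) with h3 | h3 <;> rw [h3] <;> norm_num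
    have h3 : (φ f - 1) * (φ f + 1) = 0 := by linear_combination h1
    rcases mul_eq_zero.1 h3 with h4 | h4
    · exact Or.inl (sub_eq_zero.1 h4)
    · exact Or.inr (eq_neg_of_add_eq_zero_left h4)
  have hq1 : (1 : ℝ) < (Fintype.card F : ℝ) := by
    have : 1 < Fintype.card F := Fintype.one_lt_card
    exact_mod_cast this
  have hcu : ∀ u : ℂ, ((√(Fintype.card F : ℝ) : ℝ) : ℂ) * u = 1 → (Lp N.natDegree φ).eval u ≠ 0 := by
    intro u hu
    apply central_ind h hT hne hTN hφ _ (central_redei hp.inj hG hc hu)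
    have h3 := congrArg norm hu
    rw [norm_mul, norm_one, Complex.norm_real, Real.norm_of_nonneg (Real.sqrt_nonneg _)] at h3
    have h4 : (1 : ℝ) < √(Fintype.card F : ℝ) := by
      rw [Real.lt_sqrt (by norm_num)]
      linarith
    by_contra h5
    push Not at h5
    nlinarith
  exact pos_of_central h hpm (NT_of_ind h hT hne hφ) hcu hx0 hx1

theorem cpow_real {q : ℕ} (hq : 0 < q) (s : ℝ) : (q : ℂ) ^ (-(s : ℂ)) = (((q : ℝ) ^ (-s) : ℝ) : ℂ) := by
  have hq0 : (0 : ℝ) ≤ (q : ℝ) := by positivity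
  rw [Complex.ofReal_cpow hq0]
  push_cast
  rfl

end Pool.Agent.H23.ER
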