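import Pool.Agent.H23.ER.Quad
import Pool.Agent.H23.PC.Wsq
import Mathlib.NumberTheory.LegendreSymbol.QuadraticChar.Basic

/-!
# The quadratic residue symbol, and the structure of the quadratic characters modulo a general modulus
-/

set_option autoImplicit false

open Finset Polynomial
open Pool.Agent.H341R2.Sharp (Mon mem_Mon)
open Pool.Agent.H23.FF Pool.Agent.H23.PC Pool.Agent.H23.EL

namespace Pool.Agent.H23.ER

variable {F : Type} [Field F]

open Classical in
/-- the quadratic residue symbol -/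
noncomputable def leg (P f : F[X]) : ℂ := if P ∣ f then 0 else if ∃ g, P ∣ g ^ 2 - f then 1 else -1

theorem leg_pm {P f : F[X]} (h : ¬ P ∣ f) : leg P f = 1 ∨ leg P f = -1 := by
  unfold leg
  rw [if_neg h]
  split_ifs
  · exact Or.inl rfl
  · exact Or.inr rfl

theorem leg_sq {P f : F[X]} (h : leg P f = 1) : ∃ g, P ∣ g ^ 2 - f := by
  unfold leg at h
  split_ifs at h with h1 h2
  · exact absurd h (by norm_num)
  · exact h2
  · exact absurd h (by norm_num)

variable [Fintype F]

theorem leg_good {P : F[X]} (h2 : (2 : F) ≠ 0) (hP : P.Monic) (hP' : Irreducible P) :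
    DC P (leg P) ∧ NT P (leg P) := by
  classical
  have : Fact (Irreducible P) := ⟨hP'⟩
  have hfin : Finite (AdjoinRoot P) := finite_adj hP
  let _ : Fintype (AdjoinRoot P) := Fintype.ofFinite _
  have hz : ∀ f : F[X], AdjoinRoot.mk P f = 0 ↔ P ∣ f := fun f => AdjoinRoot.mk_eq_zero
  have hsq : ∀ f : F[X], IsSquare (AdjoinRoot.mk P f) ↔ ∃ g, P ∣ g ^ 2 - f := by
    intro f
    constructor
    · rintro ⟨y, hy⟩
      obtain ⟨g, rfl⟩ := AdjoinRoot.mk_surjective y
      refine ⟨g, ?_⟩
      rw [← AdjoinRoot.mk_eq_mk, pow_two, map_mul]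
      exact hy.symm
    · rintro ⟨g, hg⟩
      refine ⟨AdjoinRoot.mk P g, ?_⟩
      rw [← map_mul, ← pow_two]
      exact (AdjoinRoot.mk_eq_mk.2 hg).symm
  have key : ∀ f : F[X], leg P f = ((quadraticChar (AdjoinRoot P) (AdjoinRoot.mk P f) : ℤ) : ℂ) := by
    intro f
    rw [quadraticChar_apply]
    unfold leg quadraticCharFun
    by_cases h3 : P ∣ f
    · rw [if_pos h3, if_pos ((hz f).2 h3)]
      simp
    · rw [if_neg h3, if_neg (fun h => h3 ((hz f).1 h))]
      by_cases h4 : ∃ g, P ∣ g ^ 2 - f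
      · rw [if_pos h4, if_pos ((hsq f).2 h4)]
        simp
      · rw [if_neg h4, if_neg (fun h => h4 ((hsq f).1 h))]
        simp
  have hdc : DC P (leg P) := by
    refine ⟨hP, ?_, ?_, ?_, ?_⟩
    · rw [key, map_one, map_one]
      simp
    · intro a b
      rw [key, key, key, map_mul, map_mul]
      push_cast
      ring
    · intro a b h
      rw [key, key, AdjoinRoot.mk_eq_mk.2 h]
    · intro a h
      have h3 : P ∣ a := by
        by_contra h4
        exact h ((coprime_iff hP').2 h4)
      unfold leg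
      rw [if_pos h3]
  refine ⟨hdc, ?_⟩
  have hchar : ringChar (AdjoinRoot P) ≠ 2 := by
    intro h
    have := ringChar.charP (AdjoinRoot P)
    have h3 : ((2 : ℕ) : AdjoinRoot P) = 0 := by
      rw [← h]
      exact CharP.cast_eq_zero (AdjoinRoot P) _
    have h4 : algebraMap F (AdjoinRoot P) 2 = 0 := by
      rw [map_ofNat]
      exact_mod_cast h3
    exact h2 ((map_eq_zero (algebraMap F (AdjoinRoot P))).1 h4)
  obtain ⟨a, ha⟩ := quadraticChar_exists_neg_one hchar
  obtain ⟨f, rfl⟩ := AdjoinRoot.mk_surjective a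
  refine ⟨f, ?_, ?_⟩
  · rw [coprime_iff hP']
    intro h
    rw [(hz f).2 h, MulChar.map_zero] at ha
    exact absurd ha (by norm_num)
  · rw [key, ha]
    norm_num

theorem leg_Good {P : F[X]} (h2 : (2 : F) ≠ 0) (hP : P.Monic) (hP' : Irreducible P) : Good leg P :=
  ⟨hP, hP', (leg_good h2 hP hP').1, (leg_good h2 hP hP').2, fun f hf => leg_pm ((coprime_iff hP').1 hf)⟩

omit [Fintype F] in
theorem cop_prod {S : Finset F[X]} (hS : ∀ P ∈ S, P.Monic ∧ Irreducible P) {P : F[X]} (hP : P.Monic)
    (hP' : Irreducible P) (hPS : P ∉ S) : IsCoprime P (∏ R ∈ S, R) := by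
  apply IsCoprime.prod_right
  intro R hR
  rw [hP'.coprime_iff_not_dvd]
  intro h
  apply hPS
  rw [monic_irr_dvd_eq hP hP' (hS R hR).1 (hS R hR).2 h]
  exact hR

omit [Fintype F] in
/-- the Chinese remainder theorem -/
theorem crt {S : Finset F[X]} (hS : ∀ P ∈ S, P.Monic ∧ Irreducible P) (x : F[X] → F[X]) :
    ∃ r : F[X], ∀ P ∈ S, P ∣ r - x P := by
  classical
  induction S using Finset.induction_on with
  | empty => exact ⟨0, fun P hP => absurd hP (notMem_empty P)⟩
  | insert P S hPS ih =>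
    have hS' : ∀ R ∈ S, R.Monic ∧ Irreducible R := fun R hR => hS R (mem_insert_of_mem hR)
    obtain ⟨r, hr⟩ := ih hS'
    obtain ⟨hP, hP'⟩ := hS P (mem_insert_self _ _)
    obtain ⟨a, b, hab⟩ := cop_prod hS' hP hP' hPS
    refine ⟨r + (∏ R ∈ S, R) * (b * (x P - r)), ?_⟩
    intro R hR
    rcases mem_insert.1 hR with h1 | hR
    · rw [h1]
      refine ⟨a * (r - x P), ?_⟩
      linear_combination (x P - r) * hab
    · have h1 : R ∣ (∏ R ∈ S, R) * (b * (x P - r)) := (dvd_prod_of_mem (fun R => R) hR).mul_right _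
      have e : r + (∏ R ∈ S, R) * (b * (x P - r)) - x R =
          (r - x R) + (∏ R ∈ S, R) * (b * (x P - r)) := by ring
      rw [e]
      exact dvd_add (hr R hR) h1

omit [Fintype F] in
theorem prod_dvd_all {S : Finset F[X]} (hS : ∀ P ∈ S, P.Monic ∧ Irreducible P) {f : F[X]}
    (hf : ∀ P ∈ S, P ∣ f) : ∏ P ∈ S, P ∣ f := by
  classical
  induction S using Finset.induction_on with
  | empty => rw [prod_empty]; exact one_dvd _
  | insert P S hPS ih =>
    have hS' : ∀ R ∈ S, R.Monic ∧ Irreducible R := fun R hR => hS R (mem_insert_of_mem hR)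
    obtain ⟨hP, hP'⟩ := hS P (mem_insert_self _ _)
    rw [prod_insert hPS]
    exact (cop_prod hS' hP hP' hPS).mul_dvd (hf P (mem_insert_self _ _))
      (ih hS' (fun R hR => hf R (mem_insert_of_mem hR)))

omit [Fintype F] in
/-- a power of the product of the primes is divisible by the modulus -/
theorem dvd_pow_prod (S : Finset F[X]) (n : ℕ) : ∀ N : F[X], N.Monic → N.natDegree ≤ n →
    (∀ P : F[X], P.Monic → Irreducible P → P ∣ N → P ∈ S) → N ∣ (∏ P ∈ S, P) ^ n := by
  induction n with
  | zero =>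
    intro N hN hd _
    rw [eq_one_of_monic_natDegree_zero hN (by omega)]
    exact one_dvd _
  | succ n ih =>
    intro N hN hd hS
    by_cases h0 : N.natDegree = 0
    · rw [eq_one_of_monic_natDegree_zero hN h0]
      exact one_dvd _
    · have hu : ¬ IsUnit N := by
        intro hu
        exact h0 (natDegree_eq_zero_of_isUnit hu)
      obtain ⟨P, hP, hP', hPN⟩ := exists_monic_irreducible_factor N hu
      have hPS := hS P hP hP' hPN
      obtain ⟨M, hM⟩ := hPN
      have hMm : M.Monic := by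
        rw [hM] at hN
        exact Monic.of_mul_monic_left hP hN
      have hdeg : N.natDegree = P.natDegree + M.natDegree := by
        rw [hM, hP.natDegree_mul hMm]
      have hPd := hP'.natDegree_pos
      have h1 := ih M hMm (by omega) (fun R hR hR' hRM => hS R hR hR' (by rw [hM]; exact hRM.mul_left _))
      rw [hM, pow_succ, mul_comm]
      exact mul_dvd_mul h1 (dvd_prod_of_mem (fun R => R) hPS)

/-- the character is trivial on the squares modulo all primes -/
theorem sq_triv {N : F[X]} {φ : F[X] → ℂ} (h : DC N φ) (h2 : (2 : F) ≠ 0)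
    (hpm : ∀ f, IsCoprime f N → φ f = 1 ∨ φ f = -1) {f : F[X]} (hf : IsCoprime f N)
    (hsq : ∀ P ∈ prs N, leg P f = 1) : φ f = 1 := by
  have hS : ∀ P ∈ prs N, P.Monic ∧ Irreducible P :=
    fun P hP => ⟨((mem_prs h.monic).1 hP).1, ((mem_prs h.monic).1 hP).2.1⟩
  have h1 : ∀ P : F[X], ∃ g, P ∈ prs N → P ∣ g ^ 2 - f := by
    intro P
    by_cases hP : P ∈ prs N
    · obtain ⟨g, hg⟩ := leg_sq (hsq P hP)
      exact ⟨g, fun _ => hg⟩
    · exact ⟨0, fun h => absurd h hP⟩
  choose x hx using h1
  obtain ⟨r, hr⟩ := crt hS x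
  have h3 : ∀ P ∈ prs N, P ∣ r ^ 2 - f := by
    intro P hP
    have e : r ^ 2 - f = (r - x P) * (r + x P) + (x P ^ 2 - f) := by ring
    rw [e]
    exact dvd_add ((hr P hP).mul_right _) (hx P hP)
  have hrc : IsCoprime r N := by
    rw [coprime_prs h.monic]
    intro P hP hPr
    have h4 : P ∣ f := by
      have e : f = r * r - (r ^ 2 - f) := by ring
      rw [e]
      exact dvd_sub (hPr.mul_right _) (h3 P hP)
    exact (coprime_prs h.monic).1 hf P hP h4
  set p := ringChar F with hp'
  have hchar : CharP F p := ringChar.charP F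
  obtain ⟨e, hp, he⟩ := FiniteField.card F p
  have : Fact p.Prime := ⟨hp⟩
  have hp2 : Odd p := by
    rcases hp.eq_two_or_odd' with h4 | h4
    · exfalso
      apply h2
      have h5 : ((2 : ℕ) : F) = 0 := by
        rw [← h4]
        exact CharP.cast_eq_zero F p
      exact_mod_cast h5
    · exact h4
  have h4 : N ∣ f ^ p ^ N.natDegree - (r ^ 2) ^ p ^ N.natDegree := by
    rw [← sub_pow_char_pow]
    have h5 : (∏ P ∈ prs N, P) ∣ f - r ^ 2 := by
      apply prod_dvd_all hS
      intro P hP
      have e : f - r ^ 2 = -(r ^ 2 - f) := by ring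
      rw [e, dvd_neg]
      exact h3 P hP
    have h6 := dvd_pow_prod (prs N) N.natDegree N h.monic le_rfl
      (fun P hP hP' hPN => (mem_prs h.monic).2 ⟨hP, hP', hPN⟩)
    refine h6.trans ((pow_dvd_pow_of_dvd h5 _).trans (pow_dvd_pow _ ?_))
    exact (Nat.lt_pow_self hp.one_lt).le
  have h5 := h.per _ _ h4
  rw [h.pow, h.pow, h.pow] at h5
  have h6 : φ r ^ 2 = 1 := by
    rcases hpm r hrc with h7 | h7 <;> rw [h7] <;> norm_num
  rw [h6, one_pow] at h5
  rcases hpm f hf with h7 | h7
  · exact h7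
  · exfalso
    rw [h7, (hp2.pow).neg_one_pow] at h5
    norm_num at h5

/-- **the structure of the quadratic characters** -/
theorem quad_struct {N : F[X]} {φ : F[X] → ℂ} (h : DC N φ) (h2 : (2 : F) ≠ 0)
    (hpm : ∀ f, IsCoprime f N → φ f = 1 ∨ φ f = -1) :
    ∃ S ⊆ prs N, ∀ f, IsCoprime f N → φ f = XS leg S f := by
  classical
  have hS : ∀ P ∈ prs N, P.Monic ∧ Irreducible P :=
    fun P hP => ⟨((mem_prs h.monic).1 hP).1, ((mem_prs h.monic).1 hP).2.1⟩
  have hL : ∀ P ∈ prs N, DC P (leg P) := fun P hP => (leg_good h2 (hS P hP).1 (hS P hP).2).1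
  have h1 : ∀ P : F[X], ∃ n : F[X], P ∈ prs N → leg P n = -1 ∧ ∀ R ∈ prs N, R ≠ P → leg R n = 1 := by
    intro P
    by_cases hP : P ∈ prs N
    · obtain ⟨ν, hν, hν1⟩ := (leg_good h2 (hS P hP).1 (hS P hP).2).2
      obtain ⟨n, hn⟩ := crt hS (fun R => if R = P then ν else 1)
      refine ⟨n, fun _ => ⟨?_, ?_⟩⟩
      · have h3 := hn P hP
        rw [if_pos rfl] at h3
        rw [(hL P hP).per _ _ h3]
        rcases leg_pm ((coprime_iff (hS P hP).2).1 hν) with h4 | h4
        · exact absurd h4 hν1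
        · exact h4
      · intro R hR hRP
        have h3 := hn R hR
        rw [if_neg hRP] at h3
        rw [(hL R hR).per _ _ h3, (hL R hR).one]
    · exact ⟨0, fun h => absurd h hP⟩
  choose n hn using h1
  have hnc : ∀ P ∈ prs N, IsCoprime (n P) N := by
    intro P hP
    rw [coprime_prs h.monic]
    intro R hR hRn
    have h3 : leg R (n P) = 0 := by
      unfold leg
      rw [if_pos hRn]
    by_cases hRP : R = P
    · rw [hRP, (hn P hP).1] at h3
      norm_num at h3
    · rw [(hn P hP).2 R hR hRP] at h3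
      norm_num at h3
  refine ⟨(prs N).filter (fun P => φ (n P) ≠ 1), filter_subset _ _, ?_⟩
  intro f hf
  have hfl : ∀ P ∈ prs N, leg P f = 1 ∨ leg P f = -1 :=
    fun P hP => leg_pm ((coprime_prs h.monic).1 hf P hP)
  set A := (prs N).filter (fun P => leg P f ≠ 1) with hA
  have hmul : ∀ (ψ : F[X] → ℂ) (D : F[X]), DC D ψ → ∀ B : Finset F[X],
      ψ (∏ P ∈ B, n P) = ∏ P ∈ B, ψ (n P) := by
    intro ψ D hψ B
    induction B using Finset.induction_on with
    | empty => rw [prod_empty, prod_empty, hψ.one]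
    | insert P B hPB ih => rw [prod_insert hPB, prod_insert hPB, hψ.mul, ih]
  have h3 : ∀ R ∈ prs N, leg R (f * ∏ P ∈ A, n P) = 1 := by
    intro R hR
    rw [(hL R hR).mul, hmul _ R (hL R hR)]
    by_cases hRA : R ∈ A
    · have h4 : leg R f = -1 := by
        rw [hA, mem_filter] at hRA
        rcases hfl R hR with h5 | h5
        · exact absurd h5 hRA.2
        · exact h5
      have h5 : ∏ P ∈ A, leg R (n P) = -1 := by
        rw [prod_eq_single R, (hn R hR).1]
        · intro P hP hPR
          rw [hA, mem_filter] at hP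
          exact (hn P hP.1).2 R hR (Ne.symm hPR)
        · intro h6
          exact absurd hRA h6
      rw [h4, h5]
      norm_num
    · have h4 : leg R f = 1 := by
        by_contra h5
        exact hRA (by rw [hA, mem_filter]; exact ⟨hR, h5⟩)
      have h5 : ∏ P ∈ A, leg R (n P) = 1 := by
        apply prod_eq_one
        intro P hP
        have hP' := hP
        rw [hA, mem_filter] at hP
        apply (hn P hP.1).2 R hR
        intro h6
        apply hRA
        rw [h6]
        exact hP'
      rw [h4, h5]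
      norm_num
  have hc : IsCoprime (f * ∏ P ∈ A, n P) N := by
    apply hf.mul_left
    apply IsCoprime.prod_left
    intro P hP
    rw [hA, mem_filter] at hP
    exact hnc P hP.1
  have h4 := sq_triv h h2 hpm hc h3
  rw [h.mul, hmul _ N h] at h4
  have h5 : ∏ P ∈ A, φ (n P) = XS leg ((prs N).filter (fun P => φ (n P) ≠ 1)) f := by
    unfold XS
    rw [hA, prod_filter, prod_filter]
    apply prod_congr rfl
    intro P hP
    rcases hfl P hP with h6 | h6 <;> rcases hpm (n P) (hnc P hP) with h7 | h7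
    · rw [h6, h7]
    · rw [h6, h7]
      norm_num
    · rw [h6, h7]
      norm_num
    · rw [h6, h7]
  rw [h5] at h4
  have h6 : XS leg ((prs N).filter (fun P => φ (n P) ≠ 1)) f ^ 2 = 1 := by
    unfold XS
    rw [← prod_pow]
    apply prod_eq_one
    intro P hP
    rw [mem_filter] at hP
    rcases hfl P hP.1 with h7 | h7 <;> rw [h7] <;> norm_num
  calc φ f = φ f * XS leg ((prs N).filter (fun P => φ (n P) ≠ 1)) f ^ 2 := by rw [h6, mul_one]
    _ = (φ f * XS leg ((prs N).filter (fun P => φ (n P) ≠ 1)) f) *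
        XS leg ((prs N).filter (fun P => φ (n P) ≠ 1)) f := by ring
    _ = XS leg ((prs N).filter (fun P => φ (n P) ≠ 1)) f := by rw [h4, one_mul]

end Pool.Agent.H23.ER
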