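import Mathlib

/-!
# A determinantal identity in characteristic two
-/

set_option autoImplicit false

open Finset

namespace Pool.Agent.H23.ER

variable {ι : Type} [Fintype ι] [DecidableEq ι] {k : Type} [Field k]

/-- the rows in `S`: `c` times the identity plus the Laplacian of `S`; the other rows are those of the identity -/
def MS (c : ι → k) (e : ι → ι → k) (S : Finset ι) : Matrix ι ι k := fun i j =>
  if i ∈ S then (if i = j then c i + ∑ r ∈ S, e i r else if j ∈ S then e i j else 0)
  else if i = j then 1 else 0

/-- the same with all the rows in `T` -/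
def NS (c : ι → k) (e : ι → ι → k) (T S : Finset ι) : Matrix ι ι k := fun i j =>
  if i ∈ T then (if i = j then c i + ∑ r ∈ S, e i r else if j ∈ S then e i j else 0)
  else if i = j then 1 else 0

theorem MS_NS (c : ι → k) (e : ι → ι → k) {T S : Finset ι} (hS : S ⊆ T) :
    (MS c e S).det * ∏ i ∈ T \ S, (c i + ∑ r ∈ S, e i r) = (NS c e T S).det := by
  have h1 : ∀ i, ¬ (i ∉ S) → ∀ j, j ∉ S → MS c e S i j = 0 := by
    intro i hi j hj
    rw [not_not] at hi
    unfold MS
    rw [if_pos hi, if_neg, if_neg hj]
    rintro rfl
    exact hj hi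
  have h2 : ∀ i, ¬ (i ∉ S) → ∀ j, j ∉ S → NS c e T S i j = 0 := by
    intro i hi j hj
    rw [not_not] at hi
    unfold NS
    rw [if_pos (hS hi), if_neg, if_neg hj]
    rintro rfl
    exact hj hi
  rw [Matrix.twoBlockTriangular_det _ (fun i => i ∉ S) h1,
    Matrix.twoBlockTriangular_det _ (fun i => i ∉ S) h2]
  have h3 : Matrix.toSquareBlockProp (MS c e S) (fun i => ¬ (i ∉ S)) =
      Matrix.toSquareBlockProp (NS c e T S) (fun i => ¬ (i ∉ S)) := by
    ext i j
    have hi : (i : ι) ∈ S := not_not.1 i.2
    rw [Matrix.toSquareBlockProp_def, Matrix.toSquareBlockProp_def, Matrix.of_apply, Matrix.of_apply]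
    unfold MS NS
    rw [if_pos hi, if_pos (hS hi)]
  have h4 : Matrix.toSquareBlockProp (MS c e S) (fun i => i ∉ S) = 1 := by
    ext i j
    rw [Matrix.toSquareBlockProp_def, Matrix.of_apply, Matrix.one_apply]
    unfold MS
    rw [if_neg i.2]
    by_cases hij : i = j
    · rw [if_pos hij, if_pos (by rw [hij])]
    · rw [if_neg hij, if_neg (fun h => hij (Subtype.ext h))]
  have h5 : Matrix.toSquareBlockProp (NS c e T S) (fun i => i ∉ S) =
      Matrix.diagonal (fun i : {i // i ∉ S} => if (i : ι) ∈ T then c i + ∑ r ∈ S, e i r else 1) := by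
    ext i j
    rw [Matrix.toSquareBlockProp_def, Matrix.of_apply, Matrix.diagonal_apply]
    unfold NS
    by_cases hij : i = j
    · subst hij
      simp
    · have hij' : (i : ι) ≠ j := fun h => hij (Subtype.ext h)
      rw [if_neg hij, if_neg hij', if_neg hij', if_neg j.2, ite_self]
  rw [h3, h4, h5, Matrix.det_one, one_mul, Matrix.det_diagonal, mul_comm]
  congr 1
  have h6 : ∏ i : {i // i ∉ S}, (if (i : ι) ∈ T then c i + ∑ r ∈ S, e i r else 1) =
      ∏ i ∈ univ.filter (fun i => i ∉ S), (if i ∈ T then c i + ∑ r ∈ S, e i r else 1) := by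
    rw [← prod_subtype_eq_prod_filter]
    apply prod_congr
    · ext i
      simp
    · intro i _
      rfl
  rw [h6, ← prod_filter_mul_prod_filter_not (univ.filter (fun i => i ∉ S)) (fun i => i ∈ T)]
  have h7 : ∏ x ∈ (univ.filter (fun i => i ∉ S)).filter (fun i => ¬ i ∈ T),
      (if x ∈ T then c x + ∑ r ∈ S, e x r else 1) = 1 := by
    apply prod_eq_one
    intro i hi
    rw [mem_filter] at hi
    rw [if_neg hi.2]
  rw [h7, mul_one]
  apply prod_congr
  · ext i
    simp only [mem_filter, mem_univ, true_and, mem_sdiff]
    tauto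
  · intro i hi
    rw [mem_filter] at hi
    rw [if_pos hi.2]

/-- the pieces of the rows -/
def gr (c : ι → k) (e : ι → ι → k) (T : Finset ι) (i : ι) : Option ι → ι → k
  | none => fun j => if i = j then (if i ∈ T then c i else 1) else 0
  | some r => fun j => e i r * ((if i = j then 1 else 0) + if r = j then 1 else 0)

/-- the index sets -/
def AT (T S : Finset ι) (i : ι) : Finset (Option ι) := if i ∈ T then insertNone S else {none}

omit [Fintype ι] in
theorem NS_row (c : ι → k) (e : ι → ι → k) (he : ∀ i, e i i = 0) (T S : Finset ι) (i : ι) :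
    NS c e T S i = ∑ o ∈ AT T S i, gr c e T i o := by
  funext j
  rw [Finset.sum_apply]
  unfold AT NS
  by_cases hi : i ∈ T
  · rw [if_pos hi, if_pos hi, sum_insertNone]
    simp only [gr]
    simp_rw [mul_add]
    rw [sum_add_distrib, if_pos hi]
    by_cases hij : i = j
    · subst hij
      rw [if_pos rfl, if_pos rfl]
      simp only [mul_ite, mul_one, mul_zero, if_true]
      rw [sum_ite_eq']
      split_ifs
      · rw [he, add_zero]
      · rw [add_zero]
    · rw [if_neg hij, if_neg hij]
      simp only [mul_ite, mul_one, mul_zero, if_neg hij, sum_const_zero, zero_add]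
      rw [sum_ite_eq']
  · rw [if_neg hi, if_neg hi, sum_singleton]
    simp only [gr]
    rw [if_neg hi]

theorem NS_det (c : ι → k) (e : ι → ι → k) (he : ∀ i, e i i = 0) (T S : Finset ι) :
    (NS c e T S).det = ∑ r ∈ Fintype.piFinset (AT T S), (Matrix.of fun i => gr c e T i (r i)).det := by
  have h1 := (Matrix.detRowAlternating (n := ι) (R := k)).toMultilinearMap.map_sum_finset
    (gr c e T) (AT T S)
  have h2 : (fun i => ∑ o ∈ AT T S i, gr c e T i o) = NS c e T S := by
    funext i
    rw [NS_row c e he]
  rw [h2] at h1
  exact h1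

theorem kernel (c : ι → k) (e : ι → ι → k) (h2 : (2 : k) = 0) {T : Finset ι} (hT : T.Nonempty)
    {r : ι → Option ι} (hr : ∀ i, r i ∈ AT T T i) (hs : ∀ R ∈ T, ∃ i, r i = some R) :
    (Matrix.of fun i => gr c e T i (r i)).det = 0 := by
  rw [← Matrix.exists_mulVec_eq_zero_iff]
  have hsome : ∀ i ∈ T, r i ≠ none := by
    intro i hi h0
    have h3 : insertNone T ⊆ T.image r := by
      intro o ho
      rw [mem_image]
      cases o with
      | none => exact ⟨i, hi, h0⟩
      | some R =>
        rw [some_mem_insertNone] at ho
        obtain ⟨j, hj⟩ := hs R ho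
        refine ⟨j, ?_, hj⟩
        by_contra hjT
        have h4 := hr j
        unfold AT at h4
        rw [if_neg hjT, mem_singleton, hj] at h4
        exact absurd h4 (by simp)
    have h4 := card_le_card h3
    have h5 := card_image_le (s := T) (f := r)
    rw [card_insertNone] at h4
    omega
  refine ⟨fun j => if j ∈ T then 1 else 0, ?_, ?_⟩
  · obtain ⟨j, hj⟩ := hT
    intro h
    have h3 := congrFun h j
    simp only [if_pos hj, Pi.zero_apply] at h3
    exact one_ne_zero h3
  · funext i
    rw [Matrix.mulVec, dotProduct, Pi.zero_apply]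
    simp only [Matrix.of_apply]
    by_cases hi : i ∈ T
    · have h3 := hr i
      unfold AT at h3
      rw [if_pos hi] at h3
      cases ho : r i with
      | none => exact absurd ho (hsome i hi)
      | some R =>
        rw [ho, some_mem_insertNone] at h3
        simp only [gr]
        have h4 : ∀ j : ι, e i R * ((if i = j then 1 else 0) + if R = j then 1 else 0) *
            (if j ∈ T then (1 : k) else 0) = e i R * ((if i = j then (if j ∈ T then 1 else 0) else 0) +
              if R = j then (if j ∈ T then 1 else 0) else 0) := by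
          intro j
          split_ifs <;> ring
        simp_rw [h4]
        rw [← mul_sum, sum_add_distrib, sum_ite_eq, sum_ite_eq]
        simp only [mem_univ, if_true, if_pos hi, if_pos h3]
        rw [one_add_one_eq_two, h2, mul_zero]
    · have h3 := hr i
      unfold AT at h3
      rw [if_neg hi, mem_singleton] at h3
      rw [h3]
      simp only [gr]
      rw [if_neg hi]
      simp only [ite_mul, one_mul, zero_mul]
      rw [sum_ite_eq]
      simp [hi]

omit [Fintype ι] in
theorem AT_mono {T S : Finset ι} (hS : S ⊆ T) (i : ι) : AT T S i ⊆ AT T T i := by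
  unfold AT
  split_ifs
  · exact insertNone.monotone hS
  · exact Subset.refl _

theorem NS_sum (c : ι → k) (e : ι → ι → k) (he : ∀ i, e i i = 0) (h2 : (2 : k) = 0) {T : Finset ι}
    (hT : T.Nonempty) : ∑ S ∈ T.powerset, (NS c e T S).det = 0 := by
  set G : (ι → Option ι) → k := fun r => (Matrix.of fun i => gr c e T i (r i)).det with hG
  have h1 : ∀ S ∈ T.powerset, (NS c e T S).det =
      ∑ r ∈ Fintype.piFinset (AT T T), if r ∈ Fintype.piFinset (AT T S) then G r else 0 := by
    intro S hS
    rw [mem_powerset] at hS
    rw [NS_det c e he, ← sum_filter]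
    apply sum_congr _ (fun _ _ => rfl)
    ext r
    rw [mem_filter, Fintype.mem_piFinset, Fintype.mem_piFinset]
    constructor
    · intro h
      exact ⟨fun i => AT_mono hS i (h i), h⟩
    · intro h
      exact h.2
  rw [sum_congr rfl h1, sum_comm]
  apply sum_eq_zero
  intro r hr
  rw [Fintype.mem_piFinset] at hr
  by_cases hs : ∀ R ∈ T, ∃ i, r i = some R
  · have h3 : G r = 0 := kernel c e h2 hT hr hs
    apply sum_eq_zero
    intro S _
    rw [h3, ite_self]
  · push Not at hs
    obtain ⟨R, hR, hRr⟩ := hs
    -- the involution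
    have hiff : ∀ S : Finset ι, (r ∈ Fintype.piFinset (AT T S)) ↔
        (r ∈ Fintype.piFinset (AT T (symmDiff S {R}))) := by
      intro S
      rw [Fintype.mem_piFinset, Fintype.mem_piFinset]
      apply forall_congr'
      intro i
      unfold AT
      by_cases hi : i ∈ T
      · rw [if_pos hi, if_pos hi]
        cases ho : r i with
        | none => simp
        | some x =>
          have hx : x ≠ R := by
            rintro rfl
            exact hRr i ho
          rw [some_mem_insertNone, some_mem_insertNone, mem_symmDiff, mem_singleton]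
          tauto
      · rw [if_neg hi, if_neg hi]
    apply sum_involution (fun S _ => symmDiff S {R})
    · intro S _
      simp only [← hiff S]
      rw [← two_mul, h2, zero_mul]
    · intro S _ _ h3
      have h4 : R ∈ symmDiff S {R} ↔ R ∈ S := by rw [h3]
      rw [mem_symmDiff, mem_singleton] at h4
      tauto
    · intro S _
      exact symmDiff_symmDiff_cancel_right {R} S
    · intro S hS
      rw [mem_powerset] at hS ⊢
      intro x hx
      rw [mem_symmDiff, mem_singleton] at hx
      rcases hx with hx | hx
      · exact hS hx.1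
      · rw [hx.1]
        exact hR

/-- **the identity** -/
theorem mat_id (c : ι → k) (e : ι → ι → k) (he : ∀ i, e i i = 0) (h2 : (2 : k) = 0) {T : Finset ι}
    (hT : T.Nonempty) :
    ∑ S ∈ T.powerset, (MS c e S).det * ∏ i ∈ T \ S, (c i + ∑ r ∈ S, e i r) = 0 := by
  rw [← NS_sum c e he h2 hT]
  apply sum_congr rfl
  intro S hS
  exact MS_NS c e (mem_powerset.1 hS)

end Pool.Agent.H23.ER
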