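import Pool.Agent.H23.ER.Fac

/-!
# The Redei matrix
-/

set_option autoImplicit false

open Finset Polynomial
open Pool.Agent.H341R2.Sharp (Mon mem_Mon)
open Pool.Agent.H23.FF Pool.Agent.H23.PC Pool.Agent.H23.EL

namespace Pool.Agent.H23.ER

section nu

variable {α ι : Type} [DecidableEq α] [Fintype ι] [DecidableEq ι] {k : Type} [Field k]

/-- the indices of a subset -/
def ix (p : ι → α) (S : Finset α) : Finset ι := univ.filter (fun i => p i ∈ S)

omit [DecidableEq ι] in
theorem image_ix {p : ι → α} {S : Finset α} (hS : S ⊆ univ.image p) : (ix p S).image p = S := by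
  ext x
  unfold ix
  rw [mem_image]
  constructor
  · rintro ⟨i, hi, rfl⟩
    rw [mem_filter] at hi
    exact hi.2
  · intro hx
    obtain ⟨i, _, rfl⟩ := mem_image.1 (hS hx)
    exact ⟨i, by rw [mem_filter]; exact ⟨mem_univ _, hx⟩, rfl⟩

omit [DecidableEq ι] in
theorem ix_image {p : ι → α} (hp : Function.Injective p) (S : Finset ι) : ix p (S.image p) = S := by
  ext i
  unfold ix
  rw [mem_filter, mem_image]
  constructor
  · rintro ⟨_, j, hj, hji⟩
    rw [← hp hji]
    exact hj
  · intro hi
    exact ⟨mem_univ _, i, hi, rfl⟩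

/-- the leading coefficients -/
noncomputable def nu (c : α → k) (e : α → α → k) (p : ι → α) (S : Finset α) : k :=
  (MS (fun i => c (p i)) (fun i j => e (p i) (p j)) (ix p S)).det

theorem nu_empty (c : α → k) (e : α → α → k) (p : ι → α) : nu c e p ∅ = 1 := by
  unfold nu
  have h : MS (fun i => c (p i)) (fun i j => e (p i) (p j)) (ix p (∅ : Finset α)) = 1 := by
    ext i j
    unfold MS ix
    rw [if_neg (by simp), Matrix.one_apply]
  rw [h, Matrix.det_one]

theorem nu_id (c : α → k) (e : α → α → k) {p : ι → α} (hp : Function.Injective p)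
    (he : ∀ i, e (p i) (p i) = 0) (h2 : (2 : k) = 0)
    {T : Finset α} (hT : T ⊆ univ.image p) (hne : T.Nonempty) :
    ∑ S ∈ T.powerset, nu c e p S * ∏ P ∈ T \ S, (c P + ∑ R ∈ S, e P R) = 0 := by
  have hsum : ∀ (S : Finset α) (f : α → k), S ⊆ univ.image p → ∑ R ∈ S, f R = ∑ i ∈ ix p S, f (p i) := by
    intro S f hS
    conv_lhs => rw [← image_ix hS]
    rw [sum_image (fun x _ y _ hxy => hp hxy)]
  have hprod : ∀ (S : Finset α) (f : α → k), S ⊆ univ.image p → ∏ R ∈ S, f R = ∏ i ∈ ix p S, f (p i) := by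
    intro S f hS
    conv_lhs => rw [← image_ix hS]
    rw [prod_image (fun x _ y _ hxy => hp hxy)]
  have hne' : (ix p T).Nonempty := by
    obtain ⟨x, hx⟩ := hne
    obtain ⟨i, _, rfl⟩ := mem_image.1 (hT hx)
    exact ⟨i, by unfold ix; rw [mem_filter]; exact ⟨mem_univ _, hx⟩⟩
  rw [← mat_id (fun i => c (p i)) (fun i j => e (p i) (p j)) he h2 hne']
  refine sum_nbij' (fun S => ix p S) (fun S => S.image p) ?_ ?_ ?_ ?_ ?_
  · intro S hS
    rw [mem_powerset] at hS ⊢
    intro i hi
    unfold ix at hi ⊢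
    rw [mem_filter] at hi ⊢
    exact ⟨hi.1, hS hi.2⟩
  · intro S hS
    rw [mem_powerset] at hS ⊢
    intro x hx
    rw [mem_image] at hx
    obtain ⟨i, hi, rfl⟩ := hx
    have h3 := hS hi
    unfold ix at h3
    rw [mem_filter] at h3
    exact h3.2
  · intro S hS
    rw [mem_powerset] at hS
    exact image_ix (hS.trans hT)
  · intro S _
    exact ix_image hp S
  · intro S hS
    rw [mem_powerset] at hS
    unfold nu
    congr 1
    have h3 : ix p T \ ix p S = ix p (T \ S) := by
      ext i
      unfold ix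
      simp
    rw [h3, hprod _ _ (sdiff_subset.trans hT)]
    apply prod_congr rfl
    intro i _
    rw [hsum _ _ (hS.trans hT)]

end nu

variable {F : Type} [Field F] {ι : Type} [Fintype ι] [DecidableEq ι]

open Classical in
/-- the Redei matrix -/
noncomputable def redei (p : ι → F[X]) : Matrix ι ι (ZMod 2) := fun i j =>
  if i = j then ∑ r : ι, (if leg (p r) (p i) = -1 then 1 else 0)
  else if leg (p j) (p i) = -1 then 1 else 0

variable {k : Type} [Field k]

/-- the degrees -/
noncomputable def degs (p : ι → F[X]) : Matrix ι ι (ZMod 2) :=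
  Matrix.diagonal (fun i => ((p i).natDegree : ZMod 2))

open Classical in
/-- the matrix for `q = 3` modulo `4` -/
noncomputable def redei3 (p : ι → F[X]) : Matrix ι ι (ZMod 2) := fun i j =>
  if Odd (p i).natDegree then (if i = j then 1 else 0)
  else redei p i j + if i = j then (((p i).natDegree / 2 : ℕ) : ZMod 2) else 0

omit [Fintype ι] in
open Classical in
theorem bit_map (φ : ZMod 2 →+* k) (P R : F[X]) :
    φ (if leg R P = -1 then 1 else 0) = ee leg k P R := by
  unfold ee
  split_ifs <;> simp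

open Classical in
theorem nu_top (φ : ZMod 2 →+* k) (c : k) (p : ι → F[X]) :
    nu (fun P => c * (P.natDegree : k)) (ee leg k) p (univ.image p) =
      ((redei p).map φ + c • (degs p).map φ).det := by
  unfold nu
  congr 1
  have h1 : ix p (univ.image p) = univ := by
    ext i
    unfold ix
    simp
  rw [h1]
  ext i j
  rw [Matrix.add_apply, Matrix.map_apply, Matrix.smul_apply, Matrix.map_apply, smul_eq_mul]
  unfold MS redei degs
  rw [if_pos (mem_univ _)]
  by_cases hij : i = j
  · subst hij
    rw [if_pos rfl, if_pos rfl, Matrix.diagonal_apply_eq, map_natCast, map_sum, add_comm]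
    congr 1
    exact sum_congr rfl (fun r _ => (bit_map φ _ _).symm)
  · rw [if_neg hij, if_neg hij, Matrix.diagonal_apply_ne _ hij, map_zero, mul_zero, add_zero,
      if_pos (mem_univ _)]
    exact (bit_map φ _ _).symm

open Classical in
theorem nu_top3 (φ : ZMod 2 →+* k) (p : ι → F[X]) :
    nu (ct k) (ef leg k) p (univ.image p) = ((redei3 p).map φ).det := by
  unfold nu
  congr 1
  have h1 : ix p (univ.image p) = univ := by
    ext i
    unfold ix
    simp
  rw [h1]
  ext i j
  rw [Matrix.map_apply]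
  unfold MS redei3 ct ef
  rw [if_pos (mem_univ _)]
  by_cases ho : Odd (p i).natDegree
  · simp only [if_pos ho]
    by_cases hij : i = j
    · subst hij
      simp only [if_true, sum_const_zero, add_zero, map_one]
    · simp only [if_neg hij, mem_univ, if_true, map_zero]
  · simp only [if_neg ho]
    unfold redei
    by_cases hij : i = j
    · subst hij
      simp only [if_true, map_add, map_natCast, map_sum, bit_map]
      rw [add_comm]
    · simp only [if_neg hij, mem_univ, if_true, add_zero, bit_map]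

/-- the Redei polynomial -/
noncomputable def rpol (p : ι → F[X]) : (ZMod 2)[X] :=
  ((redei p).map C + (X : (ZMod 2)[X]) • (degs p).map C).det

theorem rpol_eval (φ : ZMod 2 →+* k) (c : k) (p : ι → F[X]) :
    eval₂ φ c (rpol p) = ((redei p).map φ + c • (degs p).map φ).det := by
  unfold rpol
  rw [← coe_eval₂RingHom, RingHom.map_det]
  congr 1
  ext i j
  simp only [RingHom.mapMatrix_apply, Matrix.map_apply, Matrix.add_apply, Matrix.smul_apply, smul_eq_mul,
    map_add, coe_eval₂RingHom, eval₂_C]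
  rw [eval₂_mul, eval₂_X, eval₂_C]

theorem irr_cube : Irreducible (X ^ 2 + X + 1 : (ZMod 2)[X]) := by
  have hd : (X ^ 2 + X + 1 : (ZMod 2)[X]).natDegree = 2 := by
    compute_degree!
  apply Polynomial.irreducible_of_degree_le_three_of_not_isRoot
  · rw [hd]
    decide
  · intro x
    rw [IsRoot.def]
    simp only [eval_add, eval_pow, eval_X, eval_one]
    revert x
    decide

theorem rpol_ne (φ : ZMod 2 →+* k) {c : k} (h2 : (2 : k) = 0) (hc : c ^ 2 + c = 1) {p : ι → F[X]}
    (h : ¬ (X ^ 2 + X + 1 : (ZMod 2)[X]) ∣ rpol p) :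
    ((redei p).map φ + c • (degs p).map φ).det ≠ 0 := by
  rw [← rpol_eval]
  intro h0
  obtain ⟨a, b, hab⟩ := (irr_cube.coprime_iff_not_dvd).2 h
  have h1 := congrArg (eval₂ φ c) hab
  rw [eval₂_add, eval₂_mul, eval₂_mul, h0, mul_zero, add_zero] at h1
  have h3 : eval₂ φ c (X ^ 2 + X + 1 : (ZMod 2)[X]) = 0 := by
    simp only [eval₂_add, eval₂_pow, eval₂_X, eval₂_one]
    rw [hc, one_add_one_eq_two, h2]
  rw [h3, mul_zero, eval₂_one] at h1
  exact zero_ne_one h1

/-- the first case -/
theorem det_five (φ : ZMod 2 →+* k) {c : k} (h2 : (2 : k) = 0) (hc : c ^ 2 + c = 1)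
    {R : Matrix ι ι (ZMod 2)} (hdet : (R ^ 2 + R + 1).det ≠ 0) :
    (R.map φ + c • (1 : Matrix ι ι k)).det ≠ 0 := by
  have e1 : (R ^ 2 + R + 1).map φ = R.map φ * R.map φ + R.map φ + 1 := by
    have h3 := map_add (φ.mapMatrix (m := ι)) (R ^ 2 + R) 1
    have h4 := map_add (φ.mapMatrix (m := ι)) (R ^ 2) R
    have h5 := map_pow (φ.mapMatrix (m := ι)) R 2
    have h6 := map_one (φ.mapMatrix (m := ι))
    rw [h4, h5, h6, pow_two (φ.mapMatrix R)] at h3
    exact h3
  intro h0
  have h1 : (R.map φ + c • (1 : Matrix ι ι k)) * (R.map φ + (c + 1) • (1 : Matrix ι ι k)) =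
      (R ^ 2 + R + 1).map φ := by
    rw [e1]
    generalize R.map φ = M
    have e2 : (M + c • (1 : Matrix ι ι k)) * (M + (c + 1) • (1 : Matrix ι ι k)) =
        M * M + (2 * c + 1) • M + (c ^ 2 + c) • (1 : Matrix ι ι k) := by
      rw [add_mul, mul_add, mul_add, Matrix.mul_smul, Matrix.smul_mul, Matrix.smul_mul, Matrix.mul_smul,
        mul_one, one_mul, one_mul, smul_smul]
      module
    rw [e2, h2, zero_mul, zero_add, one_smul, hc, one_smul]
  have h3 := congrArg Matrix.det h1
  rw [Matrix.det_mul, h0, zero_mul] at h3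
  have h4 : φ ((R ^ 2 + R + 1).det) = 0 := by
    rw [RingHom.map_det]
    exact h3.symm
  exact hdet ((map_eq_zero φ).1 h4)

/-- the second case -/
theorem det_one (φ : ZMod 2 →+* k) {R : Matrix ι ι (ZMod 2)} (hdet : (R + 1).det ≠ 0) :
    (R.map φ + (1 : k) • (1 : Matrix ι ι k)).det ≠ 0 := by
  have h1 : R.map φ + (1 : k) • (1 : Matrix ι ι k) = (R + 1).map φ := by
    have h3 := map_add (φ.mapMatrix (m := ι)) R 1
    rw [map_one] at h3
    rw [one_smul]
    exact h3.symm
  rw [h1]
  intro h0
  apply hdet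
  apply (map_eq_zero φ).1
  rw [RingHom.map_det]
  exact h0

end Pool.Agent.H23.ER
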