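import Pool.Agent.H23.ER.Leg

/-!
# The parity of the alternating sum
-/

set_option autoImplicit false

open Finset Polynomial
open Pool.Agent.H341R2.Sharp (Mon mem_Mon)
open Pool.Agent.H23.FF Pool.Agent.H23.PC Pool.Agent.H23.EL

namespace Pool.Agent.H23.ER

variable {F : Type} [Field F] [Fintype F] {χ : F[X] → F[X] → ℂ}

/-- the number of the monic polynomials of large degree prime to the primes in `S` -/
theorem bS_large_eq {S : Finset F[X]} (hS : ∀ P ∈ S, Good χ P) :
    ∀ m : ℕ, bS ℂ S ((QS S).natDegree + m) =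
      (Fintype.card F : ℂ) ^ m * ∏ P ∈ S, ((Fintype.card F : ℂ) ^ P.natDegree - 1) := by
  classical
  induction S using Finset.induction_on with
  | empty =>
    intro m
    unfold bS QS
    rw [prod_empty, prod_empty, natDegree_one, zero_add, mul_one]
    simp [card_Mon]
  | insert P S hPS ih =>
    intro m
    have hS' : ∀ R ∈ S, Good χ R := fun R hR => hS R (mem_insert_of_mem hR)
    have hP := hS P (mem_insert_self _ _)
    have hd : (QS (insert P S)).natDegree = P.natDegree + (QS S).natDegree := by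
      unfold QS
      rw [prod_insert hPS, hP.monic.natDegree_mul (monic_prod_of_monic _ _ fun R hR => (hS' R hR).monic)]
    rw [bS_insert (fun R hR => ⟨(hS' R hR).monic, (hS' R hR).irr⟩) hP.monic hP.irr hPS, hd,
      if_pos (by omega)]
    have e1 : P.natDegree + (QS S).natDegree + m = (QS S).natDegree + (P.natDegree + m) := by omega
    have e2 : P.natDegree + (QS S).natDegree + m - P.natDegree = (QS S).natDegree + m := by omega
    rw [e2, e1, ih hS', ih hS', prod_insert hPS, pow_add]
    ring

variable (χ) in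
open Classical in
/-- the alternating sum of the coefficients -/
noncomputable def GS (T : Finset F[X]) (n : ℕ) : ℂ :=
  ∑ S ∈ T.powerset, (-1 : ℂ) ^ S.card * cS (XS χ S) (T \ S) n

open Classical in
theorem PI_series {T : Finset F[X]} (hT : ∀ P ∈ T, Good χ P) :
    ((PI χ T : ℂ[X]) : PowerSeries ℂ) =
      PowerSeries.mk (GS χ T) * (1 - PowerSeries.C (Fintype.card F : ℂ) * PowerSeries.X) := by
  set G : PowerSeries ℂ := PowerSeries.mk (GS χ T) with hG
  have h2 : ∀ S ∈ T.powerset.erase ∅, ((LS χ S * ∏ P ∈ T \ S, lf (XS χ S) P : ℂ[X]) : PowerSeries ℂ) =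
      PowerSeries.mk (fun n => cS (XS χ S) (T \ S) n) := by
    intro S hS
    rw [mem_erase, mem_powerset] at hS
    ext m
    rw [Polynomial.coeff_coe, PowerSeries.coeff_mk, LS_coeff hT hS.2 (nonempty_iff_ne_empty.2 hS.1)]
  have h3 : G = PowerSeries.mk (fun n => cS (XS χ ∅) (T \ ∅) n) + ∑ S ∈ T.powerset.erase ∅,
      PowerSeries.C ((-1 : ℂ) ^ S.card) * PowerSeries.mk (fun n => cS (XS χ S) (T \ S) n) := by
    ext m
    rw [hG, PowerSeries.coeff_mk, map_add, map_sum, PowerSeries.coeff_mk]
    unfold GS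
    rw [← add_sum_erase _ _ (empty_mem_powerset T), card_empty, pow_zero, one_mul]
    congr 1
    apply sum_congr rfl
    intro S _
    rw [PowerSeries.coeff_C_mul, PowerSeries.coeff_mk]
  rw [h3, add_mul, cS_empty hT]
  unfold PI
  rw [← Polynomial.coeToPowerSeries.ringHom_apply, map_add, map_mul, map_sum, map_prod]
  congr 1
  · apply prod_congr rfl
    intro P _
    rw [Polynomial.coeToPowerSeries.ringHom_apply, Polynomial.coe_sub, Polynomial.coe_one,
      Polynomial.coe_pow, Polynomial.coe_X]
  · rw [mul_comm]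
    congr 1
    · apply sum_congr rfl
      intro S hS
      rw [map_mul, Polynomial.coeToPowerSeries.ringHom_apply, Polynomial.coe_C,
        Polynomial.coeToPowerSeries.ringHom_apply, h2 S hS]
    · rw [Polynomial.coeToPowerSeries.ringHom_apply, Polynomial.coe_sub, Polynomial.coe_one,
        Polynomial.coe_mul, Polynomial.coe_C, Polynomial.coe_X]

theorem PI_zero {T : Finset F[X]} (hT : ∀ P ∈ T, Good χ P) : (PI χ T).coeff 0 = GS χ T 0 := by
  rw [← Polynomial.coeff_coe, PI_series hT, mul_sub, mul_one, map_sub, ← mul_assoc,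
    mul_comm (PowerSeries.mk _) (PowerSeries.C _), mul_assoc, PowerSeries.coeff_C_mul,
    PowerSeries.coeff_zero_mul_X, mul_zero, sub_zero, PowerSeries.coeff_mk]

theorem PI_succ {T : Finset F[X]} (hT : ∀ P ∈ T, Good χ P) (n : ℕ) :
    (PI χ T).coeff (n + 1) = GS χ T (n + 1) - (Fintype.card F : ℂ) * GS χ T n := by
  rw [← Polynomial.coeff_coe, PI_series hT, mul_sub, mul_one, map_sub, ← mul_assoc,
    mul_comm (PowerSeries.mk _) (PowerSeries.C _), mul_assoc, PowerSeries.coeff_C_mul,
    PowerSeries.coeff_succ_mul_X, PowerSeries.coeff_mk, PowerSeries.coeff_mk]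

open Classical in
/-- at large degrees only the principal character contributes -/
theorem GS_large {T : Finset F[X]} (hT : ∀ P ∈ T, Good χ P) (m : ℕ) :
    GS χ T ((QS T).natDegree + m) =
      (Fintype.card F : ℂ) ^ m * ∏ P ∈ T, ((Fintype.card F : ℂ) ^ P.natDegree - 1) := by
  rw [← bS_large_eq hT]
  unfold GS
  rw [← add_sum_erase _ _ (empty_mem_powerset T), card_empty, pow_zero, one_mul]
  have h1 : cS (XS χ ∅) (T \ ∅) ((QS T).natDegree + m) = bS ℂ T ((QS T).natDegree + m) := by
    unfold cS bS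
    rw [sum_filter, sdiff_empty]
    apply sum_congr rfl
    intro f _
    unfold XS
    rw [prod_empty]
  rw [h1, add_eq_left]
  apply sum_eq_zero
  intro S hS
  rw [mem_erase, mem_powerset] at hS
  have hSn : S.Nonempty := nonempty_iff_ne_empty.2 hS.1
  have hSg : ∀ P ∈ S, Good χ P := fun P hP => hT P (hS.2 hP)
  rw [← LS_coeff hT hS.2 hSn, coeff_eq_zero_of_natDegree_lt, mul_zero]
  have h2 : (LS χ S).natDegree ≤ (QS S).natDegree - 1 :=
    Lp_natDegree_le (NT_degree (dc_XS hSg) (nt_XS hSg hSn)) _
  have h3 : (∏ P ∈ T \ S, lf (XS χ S) P).natDegree ≤ ∑ P ∈ T \ S, P.natDegree := by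
    refine (natDegree_prod_le _ _).trans (sum_le_sum fun P _ => ?_)
    unfold lf
    refine (natDegree_sub_le _ _).trans ?_
    rw [natDegree_one]
    exact max_le (Nat.zero_le _) (natDegree_C_mul_X_pow_le _ _)
  have h4 : (QS T).natDegree = (QS S).natDegree + ∑ P ∈ T \ S, P.natDegree := by
    unfold QS
    rw [natDegree_prod_of_monic _ _ (fun P hP => (hT P hP).monic),
      natDegree_prod_of_monic _ _ (fun P hP => (hSg P hP).monic), add_comm, sum_sdiff hS.2]
  have h5 := NT_degree (dc_XS hSg) (nt_XS hSg hSn)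
  have h6 := natDegree_mul_le (p := LS χ S) (q := ∏ P ∈ T \ S, lf (XS χ S) P)
  omega

/-- **the parity** -/
theorem PI_even {m : ℕ} (hq : Fintype.card F = 2 * m + 1) {T : Finset F[X]} (hT : ∀ P ∈ T, Good χ P)
    (hT4 : ∀ P ∈ T, (4 : ℤ) ∣ (Fintype.card F : ℤ) ^ P.natDegree - 1) (hne : T.Nonempty) : ∃ (w : ℕ → ℤ) (N : ℕ), (∀ n, (PI χ T).coeff n = 2 ^ T.card * (w n : ℂ)) ∧
      (PI χ T).natDegree < N ∧ Even (∑ n ∈ range N, w n) := by
  classical
  choose g hg using alt_sum hT
  have hG : ∀ n, GS χ T n = 2 ^ T.card * (g n : ℂ) := hg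
  set w : ℕ → ℤ := fun n => g n - if n = 0 then 0 else (Fintype.card F : ℤ) * g (n - 1) with hw
  refine ⟨w, (QS T).natDegree + (PI χ T).natDegree + 1, ?_, by omega, ?_⟩
  · intro n
    cases n with
    | zero =>
      rw [PI_zero hT, hG]
      simp [hw]
    | succ n =>
      rw [PI_succ hT, hG, hG]
      simp only [hw]
      rw [if_neg (Nat.succ_ne_zero n), Nat.add_sub_cancel]
      push_cast
      ring
  · have h1 : ∀ N : ℕ, ∑ n ∈ range (N + 1), w n =
        g N - 2 * m * ∑ n ∈ range N, g n := by
      intro N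
      induction N with
      | zero => simp [hw]
      | succ N ih =>
        rw [sum_range_succ, ih, sum_range_succ (fun n => g n)]
        simp only [hw]
        rw [if_neg (Nat.succ_ne_zero N), Nat.add_sub_cancel, hq]
        push_cast
        ring
    rw [h1]
    apply Even.sub
    · have h2 := GS_large hT (PI χ T).natDegree
      rw [hG] at h2
      have h3 : ∀ P ∈ T, ∃ x : ℤ, ((Fintype.card F : ℂ) ^ P.natDegree - 1) = 2 * (2 * (x : ℂ)) := by
        intro P hP
        obtain ⟨x, hx⟩ := hT4 P hP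
        refine ⟨x, ?_⟩
        have h5 := congrArg (fun y : ℤ => (y : ℂ)) hx
        push_cast at h5
        rw [h5]
        ring
      choose! x hx using h3
      rw [prod_congr rfl hx, prod_mul_distrib, prod_const, prod_mul_distrib, prod_const] at h2
      have h4 : (g ((QS T).natDegree + (PI χ T).natDegree) : ℂ) =
          (Fintype.card F : ℂ) ^ (PI χ T).natDegree * (2 ^ T.card * ∏ P ∈ T, (x P : ℂ)) := by
        have h5 : (2 : ℂ) ^ T.card ≠ 0 := pow_ne_zero _ two_ne_zero
        apply mul_left_cancel₀ h5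
        rw [h2]
        ring
      have h5 : g ((QS T).natDegree + (PI χ T).natDegree) =
          (Fintype.card F : ℤ) ^ (PI χ T).natDegree * (2 ^ T.card * ∏ P ∈ T, x P) := by
        exact_mod_cast h4
      rw [h5]
      apply Even.mul_left
      apply Even.mul_right
      exact (even_two).pow_of_ne_zero (card_pos.2 hne).ne'
    · refine ⟨m * ∑ n ∈ range ((QS T).natDegree + (PI χ T).natDegree), g n, ?_⟩
      ring

end Pool.Agent.H23.ER
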