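import Pool.Agent.H23.EL.Val

/-!
# Products of quadratic characters of prime conductors
-/

set_option autoImplicit false

open Finset Polynomial
open Pool.Agent.H341R2.Sharp (Mon mem_Mon)
open Pool.Agent.H23.FF Pool.Agent.H23.PC Pool.Agent.H23.EL

namespace Pool.Agent.H23.ER

variable {F : Type} [Field F]

/-- the quadratic character modulo a prime -/
structure Good (χ : F[X] → F[X] → ℂ) (P : F[X]) : Prop where
  monic : P.Monic
  irr : Irreducible P
  dc : DC P (χ P)
  nt : NT P (χ P)
  pm : ∀ f, IsCoprime f P → χ P f = 1 ∨ χ P f = -1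

/-- the product of the characters -/
noncomputable def XS (χ : F[X] → F[X] → ℂ) (S : Finset F[X]) (f : F[X]) : ℂ := ∏ P ∈ S, χ P f

/-- the product of the primes -/
noncomputable def QS (S : Finset F[X]) : F[X] := ∏ P ∈ S, P

variable {χ : F[X] → F[X] → ℂ}

theorem coprime_QS {S : Finset F[X]} (hS : ∀ P ∈ S, Good χ P) {P : F[X]} (hP : Good χ P)
    (hPS : P ∉ S) : IsCoprime P (QS S) := by
  apply IsCoprime.prod_right
  intro R hR
  rw [hP.irr.coprime_iff_not_dvd]
  intro h
  apply hPS
  rw [monic_irr_dvd_eq hP.monic hP.irr (hS R hR).monic (hS R hR).irr h]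
  exact hR

theorem dc_XS {S : Finset F[X]} (hS : ∀ P ∈ S, Good χ P) : DC (QS S) (XS χ S) := by
  classical
  induction S using Finset.induction_on with
  | empty =>
    refine ⟨?_, ?_, ?_, ?_, ?_⟩
    · unfold QS
      rw [prod_empty]
      exact monic_one
    · unfold XS
      rw [prod_empty]
    · intro a b
      unfold XS
      rw [prod_empty, prod_empty, prod_empty, mul_one]
    · intro a b _
      unfold XS
      rw [prod_empty, prod_empty]
    · intro a ha
      exfalso
      apply ha
      unfold QS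
      rw [prod_empty]
      exact isCoprime_one_right
  | insert P S hPS ih =>
    have h1 := DC_mul (hS P (mem_insert_self _ _)).dc (ih fun R hR => hS R (mem_insert_of_mem hR))
    have e1 : QS (insert P S) = P * QS S := by
      unfold QS
      rw [prod_insert hPS]
    have e2 : XS χ (insert P S) = fun f => χ P f * XS χ S f := by
      funext f
      unfold XS
      rw [prod_insert hPS]
    rw [e1, e2]
    exact h1

theorem nt_XS {S : Finset F[X]} (hS : ∀ P ∈ S, Good χ P) (hne : S.Nonempty) : NT (QS S) (XS χ S) := by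
  classical
  obtain ⟨P, hP⟩ := hne
  have hS' : ∀ R ∈ S.erase P, Good χ R := fun R hR => hS R (mem_of_mem_erase hR)
  have h1 := NT_mul (dc_XS hS') (hS P hP).dc (coprime_QS hS' (hS P hP) (notMem_erase P S)) (hS P hP).nt
  have e1 : QS S = QS (S.erase P) * P := by
    unfold QS
    rw [prod_erase_mul S (fun R => R) hP]
  have e2 : XS χ S = fun f => XS χ (S.erase P) f * χ P f := by
    funext f
    unfold XS
    rw [prod_erase_mul S (fun R => χ R f) hP]
  rw [e1, e2]
  exact h1

theorem XS_pm {S : Finset F[X]} (hS : ∀ P ∈ S, Good χ P) {P : F[X]} (hP : Good χ P) (hPS : P ∉ S) :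
    XS χ S P = 1 ∨ XS χ S P = -1 := by
  classical
  induction S using Finset.induction_on with
  | empty =>
    left
    unfold XS
    rw [prod_empty]
  | insert R S hRS ih =>
    have h1 := ih (fun R' hR' => hS R' (mem_insert_of_mem hR')) (fun h => hPS (mem_insert_of_mem h))
    have hR := hS R (mem_insert_self _ _)
    have h2 : IsCoprime P R := by
      rw [hP.irr.coprime_iff_not_dvd]
      intro h
      apply hPS
      rw [monic_irr_dvd_eq hP.monic hP.irr hR.monic hR.irr h]
      exact mem_insert_self _ _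
    have h3 := hR.pm P h2
    have e : XS χ (insert R S) P = χ R P * XS χ S P := by
      unfold XS
      rw [prod_insert hRS]
    rw [e]
    rcases h1 with h1 | h1 <;> rcases h3 with h3 | h3 <;> rw [h1, h3] <;> norm_num

variable [Fintype F]

variable (χ) in
/-- the L-function -/
noncomputable def LS (S : Finset F[X]) : ℂ[X] := Lp (QS S).natDegree (XS χ S)

open Classical in
theorem LS_coeff {S T : Finset F[X]} (hT : ∀ P ∈ T, Good χ P) (hST : S ⊆ T) (hne : S.Nonempty) (n : ℕ) :
    (LS χ S * ∏ P ∈ T \ S, lf (XS χ S) P).coeff n = cS (XS χ S) (T \ S) n := by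
  have hS : ∀ P ∈ S, Good χ P := fun P hP => hT P (hST hP)
  apply cS_prod (dc_XS hS)
  · intro k
    exact Lp_coeff (dc_XS hS) rfl (nt_XS hS hne) k
  · intro R hR
    exact ⟨(hT R (mem_sdiff.1 hR).1).monic, (hT R (mem_sdiff.1 hR).1).irr⟩

open Classical in
theorem cS_empty {T : Finset F[X]} (hT : ∀ P ∈ T, Good χ P) :
    (PowerSeries.mk (fun n => cS (XS χ ∅) (T \ ∅) n)) *
      (1 - PowerSeries.C (Fintype.card F : ℂ) * PowerSeries.X) =
      ∏ P ∈ T, (1 - (PowerSeries.X : PowerSeries ℂ) ^ P.natDegree) := by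
  rw [← bS_prod (k := ℂ) T (fun R hR => ⟨(hT R hR).monic, (hT R hR).irr⟩)]
  congr 2
  funext n
  unfold cS bS
  rw [sum_filter, sdiff_empty]
  apply sum_congr rfl
  intro f _
  unfold XS
  rw [prod_empty]

open Classical in
theorem alt_sum {T : Finset F[X]} (hT : ∀ P ∈ T, Good χ P) (n : ℕ) :
    ∃ z : ℤ, ∑ S ∈ T.powerset, (-1 : ℂ) ^ S.card * cS (XS χ S) (T \ S) n = 2 ^ T.card * (z : ℂ) := by
  set e : F[X] → F[X] → ℤ := fun f P => if P ∣ f then 0 else if χ P f = 1 then 0 else 1 with he
  refine ⟨∑ f ∈ Mon F n, ∏ P ∈ T, e f P, ?_⟩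
  have h1 : ∀ S ∈ T.powerset, (-1 : ℂ) ^ S.card * cS (XS χ S) (T \ S) n =
      ∑ f ∈ Mon F n, (∏ P ∈ S, (-χ P f)) * ∏ P ∈ T \ S, (if P ∣ f then (0 : ℂ) else 1) := by
    intro S _
    unfold cS
    rw [sum_filter, mul_sum]
    apply sum_congr rfl
    intro f _
    have h2 : ∏ P ∈ S, (-χ P f) = (-1 : ℂ) ^ S.card * XS χ S f := by
      unfold XS
      rw [← prod_const, ← prod_mul_distrib]
      apply prod_congr rfl
      intro P _
      ring
    rw [h2]
    split_ifs with h3
    · rw [prod_eq_one (fun P hP => if_neg (h3 P hP)), mul_one]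
    · push Not at h3
      obtain ⟨P, hP, hPf⟩ := h3
      have h4 : ∏ P ∈ T \ S, (if P ∣ f then (0 : ℂ) else 1) = 0 := prod_eq_zero hP (if_pos hPf)
      rw [h4, mul_zero, mul_zero]
  rw [sum_congr rfl h1, sum_comm]
  push_cast
  rw [mul_sum]
  apply sum_congr rfl
  intro f _
  rw [← prod_add, ← prod_const, ← prod_mul_distrib]
  apply prod_congr rfl
  intro P hP
  have hg := hT P hP
  simp only [he]
  by_cases h3 : P ∣ f
  · rw [if_pos h3, if_pos h3, hg.dc.zero f (by rw [coprime_iff hg.irr, not_not]; exact h3)]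
    simp
  · rw [if_neg h3, if_neg h3]
    rcases hg.pm f ((coprime_iff hg.irr).2 h3) with h4 | h4
    · rw [if_pos h4, h4]
      simp
    · have h5 : χ P f ≠ 1 := by
        rw [h4]
        norm_num
      rw [if_neg h5, h4]
      norm_num

open Classical in
variable (χ) in
/-- the alternating sum of the L-functions -/
noncomputable def PI (T : Finset F[X]) : ℂ[X] :=
  ∏ P ∈ T, (1 - (X : ℂ[X]) ^ P.natDegree) + (1 - C (Fintype.card F : ℂ) * X) *
    ∑ S ∈ T.powerset.erase ∅, C ((-1 : ℂ) ^ S.card) * (LS χ S * ∏ P ∈ T \ S, lf (XS χ S) P)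

open Classical in
theorem PI_coeff {T : Finset F[X]} (hT : ∀ P ∈ T, Good χ P) (n : ℕ) :
    ∃ z : ℤ, (PI χ T).coeff n = 2 ^ T.card * (z : ℂ) := by
  choose g hg using alt_sum hT
  set G : PowerSeries ℂ := PowerSeries.mk (fun n => ∑ S ∈ T.powerset, (-1 : ℂ) ^ S.card *
    cS (XS χ S) (T \ S) n) with hG
  have h1 : ((PI χ T : ℂ[X]) : PowerSeries ℂ) =
      G * (1 - PowerSeries.C (Fintype.card F : ℂ) * PowerSeries.X) := by
    have h2 : ∀ S ∈ T.powerset.erase ∅, ((LS χ S * ∏ P ∈ T \ S, lf (XS χ S) P : ℂ[X]) : PowerSeries ℂ) =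
        PowerSeries.mk (fun n => cS (XS χ S) (T \ S) n) := by
      intro S hS
      rw [mem_erase, mem_powerset] at hS
      ext m
      rw [Polynomial.coeff_coe, PowerSeries.coeff_mk, LS_coeff hT hS.2 (nonempty_iff_ne_empty.2 hS.1)]
    have h3 : G = PowerSeries.mk (fun n => cS (XS χ ∅) (T \ ∅) n) + ∑ S ∈ T.powerset.erase ∅,
        PowerSeries.C ((-1 : ℂ) ^ S.card) * PowerSeries.mk (fun n => cS (XS χ S) (T \ S) n) := by
      ext m
      rw [hG, PowerSeries.coeff_mk, map_add, map_sum, PowerSeries.coeff_mk,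
        ← add_sum_erase _ _ (empty_mem_powerset T), card_empty, pow_zero, one_mul]
      congr 1
      apply sum_congr rfl
      intro S _
      rw [PowerSeries.coeff_C_mul, PowerSeries.coeff_mk]
    rw [h3, add_mul, cS_empty hT]
    unfold PI
    rw [← Polynomial.coeToPowerSeries.ringHom_apply, map_add, map_mul, map_sum, map_prod]
    congr 1
    · apply prod_congr rfl
      intro P _
      rw [Polynomial.coeToPowerSeries.ringHom_apply, Polynomial.coe_sub, Polynomial.coe_one,
        Polynomial.coe_pow, Polynomial.coe_X]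
    · rw [mul_comm]
      congr 1
      · apply sum_congr rfl
        intro S hS
        rw [map_mul, Polynomial.coeToPowerSeries.ringHom_apply, Polynomial.coe_C,
          Polynomial.coeToPowerSeries.ringHom_apply, h2 S hS]
      · rw [Polynomial.coeToPowerSeries.ringHom_apply, Polynomial.coe_sub, Polynomial.coe_one,
          Polynomial.coe_mul, Polynomial.coe_C, Polynomial.coe_X]
  have h4 : (PI χ T).coeff n = (PowerSeries.coeff n) ((PI χ T : ℂ[X]) : PowerSeries ℂ) :=
    (Polynomial.coeff_coe _ _).symm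
  rw [h4, h1, mul_sub, mul_one, map_sub, ← mul_assoc, mul_comm G (PowerSeries.C _), mul_assoc,
    PowerSeries.coeff_C_mul, hG]
  cases n with
  | zero =>
    rw [PowerSeries.coeff_zero_mul_X, mul_zero, sub_zero, PowerSeries.coeff_mk]
    exact ⟨g 0, hg 0⟩
  | succ n =>
    rw [PowerSeries.coeff_succ_mul_X, PowerSeries.coeff_mk, PowerSeries.coeff_mk, hg, hg]
    refine ⟨g (n + 1) - Fintype.card F * g n, ?_⟩
    push_cast
    ring

end Pool.Agent.H23.ER
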