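import Pool.Agent.H23.ER.Final

/-!
# Rational angles of the zeros of quadratic L-functions, primes of odd degree
-/

set_option autoImplicit false

open Finset Polynomial
open Pool.Agent.H341R2.Sharp (Mon mem_Mon)
open Pool.Agent.H23.FF Pool.Agent.H23.PC Pool.Agent.H23.EL

namespace Pool.Agent.H23.ER

/-- the binomial formula for a power of two -/
theorem two_pow_add {R : Type} [CommRing R] (t : R) (j : ℕ) :
    ∃ r : R, (1 + t) ^ 2 ^ j = 1 + t ^ 2 ^ j + 2 * t * r := by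
  induction j with
  | zero => exact ⟨0, by ring⟩
  | succ j ih =>
    obtain ⟨r, hr⟩ := ih
    obtain ⟨N, hN⟩ : ∃ N, 2 ^ j = N + 1 := ⟨2 ^ j - 1, by have := Nat.two_pow_pos j; omega⟩
    rw [hN] at hr
    refine ⟨t ^ N + 2 * t * r ^ 2 + 2 * r * (1 + t ^ (N + 1)), ?_⟩
    rw [pow_succ 2 j, pow_mul, hN, hr, pow_mul]
    ring

/-- the data at the place: `α ^ (2 ^ j m) = c`, `c = 3` modulo `4`, `m` odd, `t = α ^ m - 1` -/
structure Root (k : Type) [Field k] (π : AI →+* k) (α : AI) (m j : ℕ) (c : ℤ) : Prop where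
  two : (2 : k) = 0
  odd : Odd m
  j1 : 1 ≤ j
  c3 : c % 4 = 3
  eq : α ^ (2 ^ j * m) = (c : AI)

section root

variable {k : Type} [Field k] {π : AI →+* k} {α : AI} {m j : ℕ} {c : ℤ} (h : Root k π α m j c)

include h

theorem Root.odd_cast {d : ℕ} (hd : Odd d) : ((d : ℕ) : k) = 1 := by
  obtain ⟨b, rfl⟩ := hd
  rw [Nat.cast_add, Nat.cast_mul, Nat.cast_ofNat, h.two, zero_mul, zero_add, Nat.cast_one]

theorem Root.pi_pow : (π α) ^ m = 1 := by
  have hchar : CharP k 2 := (CharP.charP_iff_prime_eq_zero Nat.prime_two).2 (by exact_mod_cast h.two)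
  have hf : Fact (Nat.Prime 2) := ⟨Nat.prime_two⟩
  have h1 : ((π α) ^ m) ^ 2 ^ j = 1 := by
    rw [← pow_mul, mul_comm, ← map_pow, h.eq, map_intCast]
    obtain ⟨b, hb⟩ : ∃ b, c = 2 * b + 1 := ⟨c / 2, by have := h.c3; omega⟩
    rw [hb, Int.cast_add, Int.cast_mul, Int.cast_ofNat, h.two, zero_mul, zero_add, Int.cast_one]
  have h2 : ((π α) ^ m - 1) ^ 2 ^ j = 0 := by
    rw [sub_pow_char_pow, h1, one_pow, sub_self]
  exact sub_eq_zero.1 (pow_eq_zero_iff (pow_ne_zero _ two_ne_zero) |>.1 h2)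

theorem Root.t0 : π (α ^ m - 1) = 0 := by rw [map_sub, map_pow, h.pi_pow, map_one, sub_self]

theorem Root.V_two : V π (α ^ m - 1) (2 ^ j) (1 : k) (2 : ℂ) := by
  obtain ⟨r, hr⟩ := two_pow_add (α ^ m - 1) j
  obtain ⟨y, hy⟩ : ∃ y : ℤ, c = 4 * y + 3 := ⟨c / 4, by have := h.c3; omega⟩
  have h1 : (1 + (α ^ m - 1)) ^ 2 ^ j = (c : AI) := by
    rw [← h.eq, mul_comm (2 ^ j) m, pow_mul]
    congr 1
    ring
  refine ⟨1, (2 * y + 1 : ℤ) - (α ^ m - 1) * r, map_one π, ?_, ?_⟩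
  · rw [map_sub, map_mul, h.t0, zero_mul, sub_zero, map_intCast, Int.cast_add, Int.cast_mul,
      Int.cast_ofNat, h.two, zero_mul, zero_add, Int.cast_one]
  · rw [hr, hy] at h1
    have h2 := congrArg (fun z : AI => (z : ℂ)) h1
    push_cast at h2 ⊢
    simp only [two_coe] at h2 ⊢
    have e4 : ((4 : AI) : ℂ) = 4 := rfl
    have e3 : ((3 : AI) : ℂ) = 3 := rfl
    try simp only [e4, e3] at h2
    linear_combination (-1 : ℂ) * h2

theorem Root.ne : α ^ m - 1 ≠ 0 := by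
  intro h0
  have h1 : α ^ m = 1 := sub_eq_zero.1 h0
  have h2 := h.eq
  rw [mul_comm, pow_mul, h1, one_pow] at h2
  have h3 : (1 : ℤ) = c := by exact_mod_cast h2
  have := h.c3
  omega

theorem Root.V_two0 : V π (α ^ m - 1) 1 (0 : k) (2 : ℂ) := by
  apply h.V_two.up h.t0
  calc 1 < 2 ^ 1 := by norm_num
    _ ≤ 2 ^ j := Nat.pow_le_pow_right (by norm_num) h.j1

theorem Root.V_u {u : ℂ} (hu : (α : ℂ) * u = 1) : V π (α ^ m - 1) 0 ((π α) ^ (m - 1)) u := by
  refine ⟨α ^ (m - 1), α ^ m, map_pow _ _ _, by rw [map_pow, h.pi_pow], ?_⟩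
  obtain ⟨b, hb⟩ := h.odd
  have e : m - 1 = 2 * b := by omega
  rw [e, hb]
  push_cast
  linear_combination (α : ℂ) ^ (2 * b) * hu

theorem Root.V_pow {u : ℂ} (hu : (α : ℂ) * u = 1) (d : ℕ) :
    V π (α ^ m - 1) 0 (((π α) ^ (m - 1)) ^ d) (u ^ d) := by
  induction d with
  | zero =>
    rw [pow_zero, pow_zero]
    exact V.one
  | succ d ih =>
    rw [pow_succ, pow_succ]
    exact ih.mul (h.V_u hu)

/-- the constants -/
theorem Root.V_unit {u : ℂ} (hu : (α : ℂ) * u = 1) (d : ℕ) {x : ℂ} (hx : x = 1 ∨ x = -1) :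
    V π (α ^ m - 1) 0 (1 - ((π α) ^ (m - 1)) ^ d) (1 - x * u ^ d) := by
  have h1 := h.V_pow hu d
  have h2 := (V.one (π := π) (t := α ^ m - 1)).add h1.neg
  rw [← sub_eq_add_neg, ← sub_eq_add_neg] at h2
  rcases hx with rfl | rfl
  · rw [one_mul]
    exact h2
  · have h3 := (h.V_two0.up h.t0 (m := 0) (by omega)).mul h1
    rw [zero_mul, zero_add] at h3
    have h4 := h2.add h3
    rw [add_zero] at h4
    have e : 1 - -1 * u ^ d = 1 - u ^ d + 2 * u ^ d := by ring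
    rw [e]
    exact h4

theorem Root.V_one {u : ℂ} (hu : (α : ℂ) * u = 1) {d : ℕ} (hd : Odd d) (hy : (π α) ^ d = 1)
    {x : ℂ} (hx : x = 1 ∨ x = -1) : V π (α ^ m - 1) 1 (1 : k) (1 - x * u ^ d) := by
  have hg : (π α) ^ Nat.gcd m d = 1 := pow_gcd_eq_one.2 ⟨h.pi_pow, hy⟩
  obtain ⟨a, ha⟩ := Nat.gcd_dvd_left m d
  obtain ⟨b, hb⟩ := Nat.gcd_dvd_right m d
  have hao : Odd a := by
    have := h.odd
    rw [ha, Nat.odd_mul] at this
    exact this.2
  have hbo : Odd b := by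
    rw [hb, Nat.odd_mul] at hd
    exact hd.2
  set g := Nat.gcd m d with hgd
  have key : V π (α ^ m - 1) 1 (1 : k) (1 - u ^ d) := by
    refine ⟨∑ i ∈ range b, (α ^ g) ^ i, α ^ d * ∑ i ∈ range a, (α ^ g) ^ i, ?_, ?_, ?_⟩
    · rw [map_sum, sum_congr rfl (fun i _ => by rw [map_pow, map_pow, hg, one_pow]), sum_const,
        card_range, nsmul_one, h.odd_cast hbo]
    · rw [map_mul, map_pow, hy, one_mul, map_sum,
        sum_congr rfl (fun i _ => by rw [map_pow, map_pow, hg, one_pow]), sum_const,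
        card_range, nsmul_one, h.odd_cast hao]
    · have h1 : (∑ i ∈ range a, ((α : ℂ) ^ g) ^ i) * ((α : ℂ) ^ g - 1) = ((α : ℂ) ^ g) ^ a - 1 :=
        geom_sum_mul _ _
      have h2 : (∑ i ∈ range b, ((α : ℂ) ^ g) ^ i) * ((α : ℂ) ^ g - 1) = ((α : ℂ) ^ g) ^ b - 1 :=
        geom_sum_mul _ _
      have h3 : (α : ℂ) ^ d * u ^ d = 1 := by rw [← mul_pow, hu, one_pow]
      rw [← pow_mul, ← ha] at h1
      rw [← pow_mul, ← hb] at h2
      push_cast
      rw [pow_one]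
      generalize (∑ i ∈ range a, ((α : ℂ) ^ g) ^ i) = A at *
      generalize (∑ i ∈ range b, ((α : ℂ) ^ g) ^ i) = B at *
      linear_combination (-A) * h3 - A * h2 + B * h1
  rcases hx with rfl | rfl
  · rw [one_mul]
    exact key
  · have h3 := h.V_two0.mul (h.V_pow hu d)
    rw [zero_mul] at h3
    have h4 := key.add h3
    rw [add_zero] at h4
    have e : 1 - -1 * u ^ d = 1 - u ^ d + 2 * u ^ d := by ring
    rw [e]
    exact h4

end root

variable {F : Type} [Field F] [Fintype F] {χ : F[X] → F[X] → ℂ}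
variable {k : Type} [Field k] {π : AI →+* k} {α : AI} {m j : ℕ} {c : ℤ}

open Classical in
/-- the weights -/
noncomputable def wr (y : k) (P : F[X]) : ℕ := if y ^ P.natDegree = 1 then 1 else 0

open Classical in
/-- the constants -/
noncomputable def cr (y : k) (m : ℕ) (P : F[X]) : k :=
  if y ^ P.natDegree = 1 then 1 else 1 - (y ^ (m - 1)) ^ P.natDegree

open Classical in
/-- **nonvanishing** -/
theorem LS_root (h : Root k π α m j c) {T : Finset F[X]} (hT : ∀ P ∈ T, Good χ P)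
    (ho : ∀ P ∈ T, Odd P.natDegree) (hne : T.Nonempty) {u : ℂ} (hu : (α : ℂ) * u = 1) :
    (LS χ T).eval u ≠ 0 := by
  have hcr : ∀ P ∈ T, cr (π α) m P ≠ 0 := by
    intro P _
    unfold cr
    split_ifs with hy
    · exact one_ne_zero
    · intro h0
      apply hy
      have h1 : ((π α) ^ (m - 1)) ^ P.natDegree = 1 := (sub_eq_zero.1 h0).symm
      have h2 : ((π α) ^ (m - 1)) ^ P.natDegree * (π α) ^ P.natDegree = 1 := by
        rw [← mul_pow, ← pow_succ]
        obtain ⟨b, hb⟩ := h.odd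
        have e : m - 1 + 1 = m := by omega
        rw [e, h.pi_pow, one_pow]
      rw [h1, one_mul] at h2
      exact h2
  have hfac : ∀ S ⊆ T, ∀ P ∈ T, P ∉ S → V π (α ^ m - 1) (wr (π α) P)
      (cr (π α) m P + ∑ _R ∈ S, (0 : k)) (1 - XS χ S P * u ^ P.natDegree) := by
    intro S hS P hP hPS
    have h1 := XS_pm (fun R hR => hT R (hS hR)) (hT P hP) hPS
    rw [sum_const_zero, add_zero]
    unfold wr cr
    by_cases hy : (π α) ^ P.natDegree = 1
    · rw [if_pos hy, if_pos hy]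
      exact h.V_one hu (ho P hP) hy h1
    · rw [if_neg hy, if_neg hy]
      exact h.V_unit hu _ h1
  have hwr : ∀ P : F[X], wr (π α) P ≤ 1 := by
    intro P
    unfold wr
    split_ifs <;> omega
  have hPI : ∀ T' ⊆ T, T'.Nonempty →
      V π (α ^ m - 1) (∑ P ∈ T', wr (π α) P) (0 : k) ((PI χ T').eval u) := by
    intro T' hT' hne'
    choose z hz using PI_coeff (fun P hP => hT P (hT' hP))
    rw [eval_eq_sum_range]
    have hcard : ∑ P ∈ T', wr (π α) P ≤ T'.card := by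
      have h1 : ∑ P ∈ T', wr (π α) P ≤ ∑ _P ∈ T', 1 := sum_le_sum (fun P _ => hwr P)
      rwa [sum_const, smul_eq_mul, mul_one] at h1
    have hlt : ∑ P ∈ T', wr (π α) P < 2 ^ j * T'.card := by
      have h1 : 0 < T'.card := card_pos.2 hne'
      have h2 : 2 ≤ 2 ^ j := by
        calc 2 = 2 ^ 1 := by norm_num
          _ ≤ 2 ^ j := Nat.pow_le_pow_right (by norm_num) h.j1
      calc ∑ P ∈ T', wr (π α) P ≤ T'.card := hcard
        _ < 2 * T'.card := by omega
        _ ≤ 2 ^ j * T'.card := Nat.mul_le_mul_right _ h2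
    have h1 : ∀ n ∈ range ((PI χ T').natDegree + 1),
        V π (α ^ m - 1) (∑ P ∈ T', wr (π α) P) (0 : k) ((PI χ T').coeff n * u ^ n) := by
      intro n _
      rw [hz n]
      have h2 := ((h.V_two.pow T'.card).mul (V.int (z n))).mul (h.V_pow hu n)
      exact h2.up h.t0 (by omega)
    have h2 := V.sum _ h1
    rwa [sum_const_zero] at h2
  have hν : ∀ T' ⊆ T, T'.Nonempty → ∑ S ∈ T'.powerset, (∏ P ∈ S, cr (π α) m P) *
      ∏ P ∈ T' \ S, (cr (π α) m P + ∑ _R ∈ S, (0 : k)) = 0 := by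
    intro T' _ hne'
    have h1 : ∀ S ∈ T'.powerset, (∏ P ∈ S, cr (π α) m P) *
        ∏ P ∈ T' \ S, (cr (π α) m P + ∑ _R ∈ S, (0 : k)) = ∏ P ∈ T', cr (π α) m P := by
      intro S hS
      rw [mem_powerset] at hS
      rw [← prod_sdiff hS, mul_comm]
      congr 1
      apply prod_congr rfl
      intro P _
      rw [sum_const_zero, add_zero]
    rw [sum_congr rfl h1, sum_const, card_powerset, nsmul_eq_mul, Nat.cast_pow, Nat.cast_ofNat, h.two,
      zero_pow (card_pos.2 hne').ne', zero_mul]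
  intro h0
  have h3 := rec_V (χ := χ) (π := π) (t := α ^ m - 1) h.two (u := u) (T0 := T) (wr (π α))
    (cr (π α) m) (fun _ _ => 0) hfac hPI (fun S => ∏ P ∈ S, cr (π α) m P) prod_empty hν T
    (Subset.refl _) hne
  rw [h0, mul_zero] at h3
  exact h3.ne_zero h.ne (prod_ne_zero_iff.2 hcr) rfl

/-- the same for a complex number -/
theorem LS_ne {T : Finset F[X]} (hT : ∀ P ∈ T, Good χ P)
    (ho : ∀ P ∈ T, Odd P.natDegree) (hne : T.Nonempty) {E : ℕ} (hE : Even E) (hE0 : E ≠ 0) {c : ℤ}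
    (hc : c % 4 = 3) {z u : ℂ} (hz : z ^ E = c) (hu : z * u = 1) : (LS χ T).eval u ≠ 0 := by
  obtain ⟨k, _, π, hk⟩ := exists_place Nat.prime_two
  obtain ⟨j, m, hm, hjm⟩ := Nat.exists_eq_two_pow_mul_odd hE0
  have hint : IsIntegral ℤ z := by
    apply IsIntegral.of_pow (n := E) (by omega)
    rw [hz]
    exact isIntegral_algebraMap (R := ℤ) (A := ℂ) (x := c)
  have hj : 1 ≤ j := by
    by_contra h0
    have h1 : j = 0 := by omega
    rw [h1, pow_zero, one_mul] at hjm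
    rw [hjm] at hE
    exact (Nat.not_even_iff_odd.2 hm) hE
  have hR : Root k π (⟨z, hint⟩ : AI) m j c := by
    refine ⟨by exact_mod_cast hk, hm, hj, hc, ?_⟩
    rw [← hjm]
    apply Subtype.ext
    push_cast
    exact hz
  exact LS_root hR hT ho hne hu

end Pool.Agent.H23.ER
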