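import Pool.Agent.H23.ER.Par
import Pool.Agent.H23.ER.Mat

/-!
# The leading term of the central value at a place above two
-/

set_option autoImplicit false

open Finset Polynomial
open Pool.Agent.H341R2.Sharp (Mon mem_Mon)
open Pool.Agent.H23.FF Pool.Agent.H23.PC Pool.Agent.H23.EL

namespace Pool.Agent.H23.ER

section val

variable {k : Type} [Field k] {π : AI →+* k} {t : AI}

theorem V_prod' {ι : Type} [DecidableEq ι] (s : Finset ι) {x : ι → ℂ} {c : ι → k} {w : ι → ℕ}
    (h : ∀ i ∈ s, V π t (w i) (c i) (x i)) :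
    V π t (∑ i ∈ s, w i) (∏ i ∈ s, c i) (∏ i ∈ s, x i) := by
  induction s using Finset.induction_on with
  | empty =>
    rw [prod_empty, prod_empty, sum_empty]
    exact V.one
  | insert i s hi ih =>
    rw [prod_insert hi, prod_insert hi, sum_insert hi]
    exact (h i (mem_insert_self _ _)).mul (ih fun j hj => h j (mem_insert_of_mem hj))

theorem V_sign (h2 : (2 : k) = 0) (n : ℕ) : V π t 0 (1 : k) ((-1 : ℂ) ^ n) := by
  have h0 : (-1 : k) = 1 := by linear_combination (-1 : k) * h2
  have h1 : V π t 0 (1 : k) (-1 : ℂ) := by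
    have h2 := (V.one (π := π) (t := t)).neg
    rwa [h0] at h2
  have h2 := h1.pow n
  rwa [zero_mul] at h2

end val

variable {F : Type} [Field F] {χ : F[X] → F[X] → ℂ}
variable {m : ℕ} {k : Type} [Field k] {π : AI →+* k} {t τ : AI}

variable (χ) (k) in
open Classical in
/-- the symbols, in characteristic two -/
noncomputable def ee (P R : F[X]) : k := if χ R P = -1 then 1 else 0

theorem ee_self {P : F[X]} (hP : Good χ P) : ee χ k P P = 0 := by
  unfold ee
  rw [if_neg]
  rw [hP.dc.zero P (by rw [coprime_iff hP.irr, not_not])]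
  norm_num

theorem XS_ee (h2 : (2 : k) = 0) {S : Finset F[X]} (hS : ∀ R ∈ S, Good χ R) {P : F[X]} (hP : Good χ P)
    (hPS : P ∉ S) : (XS χ S P = 1 ∧ ∑ R ∈ S, ee χ k P R = 0) ∨
      (XS χ S P = -1 ∧ ∑ R ∈ S, ee χ k P R = 1) := by
  classical
  induction S using Finset.induction_on with
  | empty =>
    left
    unfold XS
    rw [prod_empty, sum_empty]
    exact ⟨rfl, rfl⟩
  | insert R S hRS ih =>
    have h1 := ih (fun R' hR' => hS R' (mem_insert_of_mem hR')) (fun h => hPS (mem_insert_of_mem h))
    have hR := hS R (mem_insert_self _ _)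
    have h3 : IsCoprime P R := by
      rw [hP.irr.coprime_iff_not_dvd]
      intro h
      apply hPS
      rw [monic_irr_dvd_eq hP.monic hP.irr hR.monic hR.irr h]
      exact mem_insert_self _ _
    have h4 := hR.pm P h3
    have e : XS χ (insert R S) P = χ R P * XS χ S P := by
      unfold XS
      rw [prod_insert hRS]
    rw [e, sum_insert hRS]
    have e1 : χ R P = 1 → ee χ k P R = 0 := by
      intro h5
      unfold ee
      rw [if_neg]
      rw [h5]
      norm_num
    have e2 : χ R P = -1 → ee χ k P R = 1 := by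
      intro h5
      unfold ee
      rw [if_pos h5]
    rcases h1 with ⟨h5, h6⟩ | ⟨h5, h6⟩ <;> rcases h4 with h7 | h7
    · left
      rw [h5, h6, e1 h7, h7]
      norm_num
    · right
      rw [h5, h6, e2 h7, h7]
      norm_num
    · right
      rw [h5, h6, e1 h7, h7]
      norm_num
    · left
      rw [h5, h6, e2 h7, h7, one_add_one_eq_two, h2]
      norm_num

variable [Fintype F]

open Classical in
/-- the recursion for the leading coefficients -/
theorem rec_V (h2 : (2 : k) = 0) {u : ℂ}
    {T0 : Finset F[X]} (w : F[X] → ℕ) (c : F[X] → k) (e : F[X] → F[X] → k)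
    (hfac : ∀ S ⊆ T0, ∀ P ∈ T0, P ∉ S →
      V π t (w P) (c P + ∑ R ∈ S, e P R) (1 - XS χ S P * u ^ P.natDegree))
    (hPI : ∀ T ⊆ T0, T.Nonempty → V π t (∑ P ∈ T, w P) (0 : k) ((PI χ T).eval u))
    (ν : Finset F[X] → k) (hν0 : ν ∅ = 1)
    (hν : ∀ T ⊆ T0, T.Nonempty →
      ∑ S ∈ T.powerset, ν S * ∏ P ∈ T \ S, (c P + ∑ R ∈ S, e P R) = 0) (T : Finset F[X]) :
    T ⊆ T0 → T.Nonempty →
      V π t (∑ P ∈ T, w P) (ν T) ((1 - (Fintype.card F : ℂ) * u) * (LS χ T).eval u) := by
  induction T using Finset.strongInduction with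
  | H T ih =>
    intro hTT hne
    set A : Finset F[X] → ℂ := fun S => (1 - (Fintype.card F : ℂ) * u) * ((-1 : ℂ) ^ S.card *
      ((LS χ S).eval u * ∏ P ∈ T \ S, (1 - XS χ S P * u ^ P.natDegree))) with hA
    set B : Finset F[X] → k := fun S => ν S * ∏ P ∈ T \ S, (c P + ∑ R ∈ S, e P R) with hB
    have hTm : T ∈ T.powerset.erase ∅ := by
      rw [mem_erase, mem_powerset]
      exact ⟨nonempty_iff_ne_empty.1 hne, Subset.refl T⟩
    have h1 : (PI χ T).eval u = ∏ P ∈ T, (1 - u ^ P.natDegree) +
        (A T + ∑ S ∈ (T.powerset.erase ∅).erase T, A S) := by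
      rw [add_sum_erase _ _ hTm]
      unfold PI
      rw [eval_add, eval_mul, eval_prod, eval_finsetSum, mul_sum]
      congr 1
      · apply prod_congr rfl
        intro P _
        simp
      · apply sum_congr rfl
        intro S _
        simp only [hA]
        rw [eval_mul, eval_mul, eval_C, eval_prod]
        have h2 : ∀ P ∈ T \ S, (lf (XS χ S) P).eval u = 1 - XS χ S P * u ^ P.natDegree := by
          intro P _
          unfold lf
          simp
        rw [prod_congr rfl h2]
        simp
    have hBs : B ∅ + (B T + ∑ S ∈ (T.powerset.erase ∅).erase T, B S) = 0 := by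
      rw [add_sum_erase _ _ hTm, add_sum_erase _ _ (empty_mem_powerset T)]
      exact hν T hTT hne
    -- the proper subsets
    have h4 : ∀ S ∈ (T.powerset.erase ∅).erase T, V π t (∑ P ∈ T, w P) (B S) (A S) := by
      intro S hS
      rw [mem_erase, mem_erase, mem_powerset] at hS
      obtain ⟨hST, hS0, hSs⟩ := hS
      have hSS : S ⊂ T := Finset.ssubset_iff_subset_ne.2 ⟨hSs, hST⟩
      have hSn : S.Nonempty := nonempty_iff_ne_empty.2 hS0
      have e1 := ih S hSS (hSs.trans hTT) hSn
      have e2 : V π t (∑ P ∈ T \ S, w P) (∏ P ∈ T \ S, (c P + ∑ R ∈ S, e P R))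
          (∏ P ∈ T \ S, (1 - XS χ S P * u ^ P.natDegree)) := by
        apply V_prod'
        intro P hP
        rw [mem_sdiff] at hP
        exact hfac S (hSs.trans hTT) P (hTT hP.1) hP.2
      have e3 := (V_sign h2 S.card).mul (e1.mul e2)
      have e4 : 0 + (∑ P ∈ S, w P + ∑ P ∈ T \ S, w P) = ∑ P ∈ T, w P := by
        rw [zero_add, add_comm, sum_sdiff hSs]
      rw [e4, one_mul] at e3
      simp only [hA, hB]
      have e5 : (1 - (Fintype.card F : ℂ) * u) * ((-1 : ℂ) ^ S.card *
          ((LS χ S).eval u * ∏ P ∈ T \ S, (1 - XS χ S P * u ^ P.natDegree))) =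
          (-1 : ℂ) ^ S.card * ((1 - (Fintype.card F : ℂ) * u) * (LS χ S).eval u *
            ∏ P ∈ T \ S, (1 - XS χ S P * u ^ P.natDegree)) := by ring
      rw [e5]
      exact e3
    have h3 := V.sum _ h4
    have h5 : V π t (∑ P ∈ T, w P) (B ∅) (∏ P ∈ T, (1 - u ^ P.natDegree)) := by
      have h6 := V_prod' T (x := fun P : F[X] => 1 - u ^ P.natDegree) (c := c) (w := w) (π := π) (t := t)
        (fun P hP => by
          have h7 := hfac ∅ (empty_subset _) P (hTT hP) (notMem_empty P)
          rw [sum_empty, add_zero] at h7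
          unfold XS at h7
          rw [prod_empty, one_mul] at h7
          exact h7)
      have h7 : B ∅ = ∏ P ∈ T, c P := by
        simp only [hB]
        rw [hν0, one_mul, sdiff_empty]
        apply prod_congr rfl
        intro P _
        rw [sum_empty, add_zero]
      rw [h7]
      exact h6
    have h6 := (hPI T hTT hne).add ((h5.neg).add h3.neg)
    have e1 : (PI χ T).eval u + (-(∏ P ∈ T, (1 - u ^ P.natDegree)) +
        -(∑ S ∈ (T.powerset.erase ∅).erase T, A S)) = A T := by
      rw [h1]
      ring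
    have e2 : (0 : k) + (-(B ∅) + -(∑ S ∈ (T.powerset.erase ∅).erase T, B S)) = ν T := by
      have h7 : B T = ν T := by
        simp only [hB]
        rw [Finset.sdiff_self, prod_empty, mul_one]
      rw [← h7]
      linear_combination -hBs
    rw [e1, e2] at h6
    have h8 := (V_sign h2 T.card).mul h6
    rw [one_mul, zero_add] at h8
    have e3 : (-1 : ℂ) ^ T.card * A T = (1 - (Fintype.card F : ℂ) * u) * (LS χ T).eval u := by
      simp only [hA]
      rw [Finset.sdiff_self, prod_empty, mul_one]
      have e5 : ((-1 : ℂ) ^ T.card) * (-1 : ℂ) ^ T.card = 1 := by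
        rw [← mul_pow]
        norm_num
      linear_combination ((1 - (Fintype.card F : ℂ) * u) * (LS χ T).eval u) * e5
    rwa [e3] at h8

end Pool.Agent.H23.ER
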