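import Pool.Agent.H23.ER.Leg
import Mathlib

/-!
# The reciprocity law of the quadratic residue symbol of `F_q[T]`, `q = 1` modulo `4`
-/

set_option autoImplicit false

open Finset Polynomial
open Pool.Agent.H23.FF Pool.Agent.H23.PC Pool.Agent.H23.EL

namespace Pool.Agent.H23.ER

variable {F : Type} [Field F] [Fintype F]

/-- the norm as a product over the roots -/
theorem norm_roots {P : F[X]} (hP : P.Monic) (hP' : Irreducible P) (f : F[X]) (E : Type) [Field E]
    [Algebra F E] [IsAlgClosed E] :
    algebraMap F E (Algebra.norm F (AdjoinRoot.mk P f)) =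
      (((P.map (algebraMap F E)).roots).map (fun ρ => (f.map (algebraMap F E)).eval ρ)).prod := by
  classical
  have : Fact (Irreducible P) := ⟨hP'⟩
  have hfd : FiniteDimensional F (AdjoinRoot P) := (AdjoinRoot.powerBasis hP.ne_zero).finite
  have : Algebra.IsSeparable F (AdjoinRoot P) := inferInstance
  rw [Algebra.norm_eq_prod_embeddings F E (AdjoinRoot.mk P f)]
  rw [Fintype.prod_equiv (AdjoinRoot.equiv E F P hP.ne_zero)
    (fun σ : AdjoinRoot P →ₐ[F] E => σ (AdjoinRoot.mk P f))
    (fun x => (f.map (algebraMap F E)).eval (x : E)) ?_]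
  · have hnd : (P.aroots E).Nodup := nodup_roots (PerfectField.separable_of_irreducible hP').map
    have h1 := Finset.prod_mem_multiset (P.aroots E)
      (fun x : {x // x ∈ P.aroots E} => (f.map (algebraMap F E)).eval (x : E))
      (fun x : E => (f.map (algebraMap F E)).eval x) (fun x => rfl)
    rw [h1, Finset.prod_eq_multiset_prod, Multiset.toFinset_val, Multiset.dedup_eq_self.mpr hnd]
  · intro σ
    have h1 : ((AdjoinRoot.equiv E F P hP.ne_zero σ : {x // x ∈ P.aroots E}) : E) =
        σ (AdjoinRoot.root P) := by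
      simp [AdjoinRoot.equiv, PowerBasis.liftEquiv']
    rw [h1, eval_map_algebraMap, ← AdjoinRoot.aeval_eq, ← aeval_algHom_apply]

/-- the norms of `R` modulo `P` and of `P` modulo `R` are equal up to sign -/
theorem norm_symm {P R : F[X]} (hP : P.Monic) (hP' : Irreducible P) (hR : R.Monic) (hR' : Irreducible R) :
    ∃ n : ℕ, Algebra.norm F (AdjoinRoot.mk P R) = (-1) ^ n * Algebra.norm F (AdjoinRoot.mk R P) := by
  let E := AlgebraicClosure F
  set P' := P.map (algebraMap F E) with hPe
  set R' := R.map (algebraMap F E) with hRe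
  have hPm : P'.Monic := hP.map _
  have hRm : R'.Monic := hR.map _
  have h1 := map_sub_sprod_roots_eq_prod_map_eval P'.roots R' hRm (IsAlgClosed.splits _)
  have h2 := map_sub_roots_sprod_eq_prod_map_eval R'.roots P' hPm (IsAlgClosed.splits _)
  refine ⟨R'.roots.card * P'.roots.card, ?_⟩
  apply (algebraMap F E).injective
  rw [map_mul, map_pow, map_neg, map_one, norm_roots hP hP' R E, norm_roots hR hR' P E]
  exact h1.symm.trans h2

theorem leg_norm (h2 : ringChar F ≠ 2) {P f : F[X]} (hP : P.Monic) (hP' : Irreducible P) (hf : ¬ P ∣ f) :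
    leg P f = 1 ↔ (Algebra.norm F (AdjoinRoot.mk P f)) ^ (Fintype.card F / 2) = 1 := by
  classical
  have : Fact (Irreducible P) := ⟨hP'⟩
  have hfd : FiniteDimensional F (AdjoinRoot P) := (AdjoinRoot.powerBasis hP.ne_zero).finite
  have hfin : Finite (AdjoinRoot P) := finite_adj hP
  let _ : Fintype (AdjoinRoot P) := Fintype.ofFinite _
  have hchar : ringChar (AdjoinRoot P) ≠ 2 := by
    rw [← Algebra.ringChar_eq F (AdjoinRoot P)]
    exact h2
  have hne : AdjoinRoot.mk P f ≠ 0 := by
    rw [Ne, AdjoinRoot.mk_eq_zero]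
    exact hf
  have h1 : leg P f = 1 ↔ IsSquare (AdjoinRoot.mk P f) := by
    constructor
    · intro h
      obtain ⟨g, hg⟩ := leg_sq h
      refine ⟨AdjoinRoot.mk P g, ?_⟩
      rw [← map_mul, ← pow_two]
      exact (AdjoinRoot.mk_eq_mk.2 hg).symm
    · rintro ⟨y, hy⟩
      obtain ⟨g, rfl⟩ := AdjoinRoot.mk_surjective y
      have h3 : ∃ g, P ∣ g ^ 2 - f := ⟨g, by rw [← AdjoinRoot.mk_eq_mk, pow_two, map_mul]; exact hy.symm⟩
      unfold leg
      rw [if_neg hf, if_pos h3]
  rw [h1, FiniteField.isSquare_iff hchar hne]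
  have hodd : Fintype.card F % 2 = 1 := FiniteField.odd_card_of_char_ne_two h2
  have hcard : Fintype.card (AdjoinRoot P) / 2 =
      ((Nat.card (AdjoinRoot P) - 1) / (Nat.card F - 1)) * (Fintype.card F / 2) := by
    rw [Nat.card_eq_fintype_card, Nat.card_eq_fintype_card,
      Module.card_eq_pow_finrank (K := F) (V := AdjoinRoot P)]
    obtain ⟨c, hc⟩ : ∃ c, Fintype.card F = 2 * c + 1 := ⟨Fintype.card F / 2, by omega⟩
    have hq1 : 1 < Fintype.card F := Fintype.one_lt_card
    set n := Module.finrank F (AdjoinRoot P)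
    have hdvd : (Fintype.card F - 1) ∣ Fintype.card F ^ n - 1 := by
      have := Nat.sub_dvd_pow_sub_pow (Fintype.card F) 1 n
      rwa [one_pow] at this
    obtain ⟨x, hx⟩ := hdvd
    have hpos : 0 < Fintype.card F ^ n := by positivity
    have e1 : Fintype.card F ^ n = 2 * (c * x) + 1 := by
      have e2 : Fintype.card F - 1 = 2 * c := by omega
      rw [e2] at hx
      have : Fintype.card F ^ n = 2 * c * x + 1 := by omega
      rw [this]
      ring
    have e3 : (Fintype.card F ^ n - 1) / (Fintype.card F - 1) = x := by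
      rw [hx, Nat.mul_div_cancel_left _ (by omega)]
    have e4 : Fintype.card F / 2 = c := by omega
    rw [e3, e4, e1]
    have e5 : (2 * (c * x) + 1) / 2 = c * x := by omega
    rw [e5, mul_comm]
  rw [hcard, pow_mul, ← FiniteField.algebraMap_norm_eq_pow, ← map_pow]
  constructor
  · intro h
    exact (algebraMap F (AdjoinRoot P)).injective (by rw [h, map_one])
  · intro h
    rw [h, map_one]

/-- **the reciprocity law** -/
theorem leg_symm (hq : Fintype.card F % 4 = 1) {P R : F[X]} (hP : P.Monic) (hP' : Irreducible P)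
    (hR : R.Monic) (hR' : Irreducible R) (hPR : P ≠ R) : leg P R = -1 ↔ leg R P = -1 := by
  have h2 : ringChar F ≠ 2 := by
    intro h
    have h1 := FiniteField.even_card_iff_char_two.1 h
    omega
  have n1 : ¬ P ∣ R := fun h => hPR (monic_irr_dvd_eq hP hP' hR hR' h)
  have n2 : ¬ R ∣ P := fun h => hPR (monic_irr_dvd_eq hR hR' hP hP' h).symm
  have h3 : leg P R = 1 ↔ leg R P = 1 := by
    rw [leg_norm h2 hP hP' n1, leg_norm h2 hR hR' n2]
    obtain ⟨n, hn⟩ := norm_symm hP hP' hR hR'
    have h4 : Even (Fintype.card F / 2) := by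
      rw [Nat.even_iff]
      omega
    rw [hn, mul_pow, ← pow_mul, mul_comm n, pow_mul, h4.neg_one_pow, one_pow, one_mul]
  constructor
  · intro h
    rcases leg_pm n2 with h5 | h5
    · rw [h3.2 h5] at h
      norm_num at h
    · exact h5
  · intro h
    rcases leg_pm n1 with h5 | h5
    · rw [h3.1 h5] at h
      norm_num at h
    · exact h5

end Pool.Agent.H23.ER
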