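import Pool.Agent.H23.ER.Recip
import Pool.Agent.H23.ER.Cen

/-!
# The Redei matrix of at most four primes
-/

set_option autoImplicit false

open Finset Polynomial
open Pool.Agent.H23.FF Pool.Agent.H23.PC Pool.Agent.H23.EL

namespace Pool.Agent.H23.ER

theorem d4 {R : Type} [CommRing R] (M : Matrix (Fin 4) (Fin 4) R) : M.det =
    M 0 0 * (M 1 1 * (M 2 2 * M 3 3 - M 2 3 * M 3 2) - M 1 2 * (M 2 1 * M 3 3 - M 2 3 * M 3 1) +
      M 1 3 * (M 2 1 * M 3 2 - M 2 2 * M 3 1)) -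
    M 0 1 * (M 1 0 * (M 2 2 * M 3 3 - M 2 3 * M 3 2) - M 1 2 * (M 2 0 * M 3 3 - M 2 3 * M 3 0) +
      M 1 3 * (M 2 0 * M 3 2 - M 2 2 * M 3 0)) +
    M 0 2 * (M 1 0 * (M 2 1 * M 3 3 - M 2 3 * M 3 1) - M 1 1 * (M 2 0 * M 3 3 - M 2 3 * M 3 0) +
      M 1 3 * (M 2 0 * M 3 1 - M 2 1 * M 3 0)) -
    M 0 3 * (M 1 0 * (M 2 1 * M 3 2 - M 2 2 * M 3 1) - M 1 1 * (M 2 0 * M 3 2 - M 2 2 * M 3 0) +
      M 1 2 * (M 2 0 * M 3 1 - M 2 1 * M 3 0)) := by
  rw [Matrix.det_succ_row_zero, Fin.sum_univ_four]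
  simp only [Matrix.det_fin_three, Matrix.submatrix_apply]
  simp [Fin.succAbove]
  ring

theorem det4 : ∀ a b c d e f : ZMod 2,
    ((!![a+b+c, a, b, c; a, a+d+e, d, e; b, d, b+d+f, f; c, e, f, c+e+f] :
      Matrix (Fin 4) (Fin 4) (ZMod 2)) ^ 2 +
     !![a+b+c, a, b, c; a, a+d+e, d, e; b, d, b+d+f, f; c, e, f, c+e+f] + 1).det ≠ 0 := by
  intro a b c d e f
  rw [d4, pow_two]
  simp
  revert a b c d e f
  decide +kernel

theorem det3 : ∀ a b d : ZMod 2,
    ((!![a+b, a, b; a, a+d, d; b, d, b+d] : Matrix (Fin 3) (Fin 3) (ZMod 2)) ^ 2 +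
     !![a+b, a, b; a, a+d, d; b, d, b+d] + 1).det ≠ 0 := by
  intro a b d
  rw [Matrix.det_fin_three, pow_two]
  simp
  revert a b d
  decide +kernel

theorem det2 : ∀ a : ZMod 2,
    ((!![a, a; a, a] : Matrix (Fin 2) (Fin 2) (ZMod 2)) ^ 2 +
     !![a, a; a, a] + 1).det ≠ 0 := by
  intro a
  rw [Matrix.det_fin_two, pow_two]
  simp
  revert a
  decide +kernel

/-- symmetric matrices with zero row sums of size at most four -/
theorem small_mat {r : ℕ} (hr : r ≤ 4) (b : Fin r → Fin r → ZMod 2) (h0 : ∀ i, b i i = 0)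
    (hs : ∀ i j, b i j = b j i) (R : Matrix (Fin r) (Fin r) (ZMod 2))
    (hR : ∀ i j, R i j = if i = j then ∑ l, b i l else b i j) : (R ^ 2 + R + 1).det ≠ 0 := by
  interval_cases r
  · rw [Matrix.det_isEmpty]
    exact one_ne_zero
  · have e : R = 0 := by
      ext i j
      fin_cases i
      fin_cases j
      rw [hR]
      simp [h0]
    rw [e]
    simp
  · have e : R = !![b 0 1, b 0 1; b 0 1, b 0 1] := by
      ext i j
      rw [hR]
      fin_cases i <;> fin_cases j <;> simp [h0, Fin.sum_univ_two, hs 1 0]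
    rw [e]
    exact det2 _
  · have e : R = !![b 0 1 + b 0 2, b 0 1, b 0 2; b 0 1, b 0 1 + b 1 2, b 1 2;
        b 0 2, b 1 2, b 0 2 + b 1 2] := by
      ext i j
      rw [hR]
      fin_cases i <;> fin_cases j <;> simp [h0, Fin.sum_univ_three, hs 1 0, hs 2 0, hs 2 1]
    rw [e]
    exact det3 _ _ _
  · have e : R = !![b 0 1 + b 0 2 + b 0 3, b 0 1, b 0 2, b 0 3;
        b 0 1, b 0 1 + b 1 2 + b 1 3, b 1 2, b 1 3;
        b 0 2, b 1 2, b 0 2 + b 1 2 + b 2 3, b 2 3;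
        b 0 3, b 1 3, b 2 3, b 0 3 + b 1 3 + b 2 3] := by
      ext i j
      rw [hR]
      fin_cases i <;> fin_cases j <;>
        simp [h0, Fin.sum_univ_four, hs 1 0, hs 2 0, hs 2 1, hs 3 0, hs 3 1, hs 3 2]
    rw [e]
    exact det4 _ _ _ _ _ _

variable {F : Type} [Field F] [Fintype F]

/-- **at most four primes** -/
theorem small_redei (hq : Fintype.card F % 4 = 1) {r : ℕ} (hr : r ≤ 4) {P : Fin r → F[X]}
    (hP : ∀ i, (P i).Monic ∧ Irreducible (P i)) (hinj : Function.Injective P) :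
    ((redei P) ^ 2 + redei P + 1).det ≠ 0 := by
  classical
  apply small_mat hr (fun i j => if leg (P j) (P i) = -1 then 1 else 0)
  · intro i
    rw [if_neg]
    unfold leg
    rw [if_pos dvd_rfl]
    norm_num
  · intro i j
    by_cases hij : i = j
    · rw [hij]
    · have h1 := leg_symm hq (hP j).1 (hP j).2 (hP i).1 (hP i).2 (fun h => hij (hinj h).symm)
      simp only [h1]
  · intro i j
    unfold redei
    rfl

end Pool.Agent.H23.ER
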